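import Mathlib

open MeasureTheory ProbabilityTheory Set Filter
open scoped ENNReal NNReal Topology

namespace Pool.Agent.Helper86.Ppp

section block

variable {E : Type*} [MeasurableSpace E]

/-- Number of the first `p.1` points of the sequence `p.2` lying in `A`. -/
noncomputable def cnt (A : Set E) (p : ℕ × (ℕ → E)) : ℕ :=
  ∑ n ∈ Finset.range p.1, A.indicator (fun _ => 1) (p.2 n)

lemma measurable_cnt {A : Set E} (hA : MeasurableSet A) : Measurable (cnt A) := by
  refine measurable_from_prod_countable_right fun M => ?_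
  simp only [cnt]
  refine Finset.measurable_sum _ fun n _ => ?_
  exact (measurable_const.indicator hA).comp (measurable_pi_apply n)

/-- Law of a Poisson number of points together with an i.i.d. sequence. -/
noncomputable def blk (m : ℝ≥0) (κ : Measure E) [IsProbabilityMeasure κ] :
    Measure (ℕ × (ℕ → E)) :=
  (poissonMeasure m).prod (Measure.infinitePi fun _ : ℕ => κ)

instance (m : ℝ≥0) (κ : Measure E) [IsProbabilityMeasure κ] : IsProbabilityMeasure (blk m κ) := by
  unfold blk; infer_instance

lemma integral_pow_seq (κ : Measure E) [IsProbabilityMeasure κ] (h : E → ℂ) (hh : Measurable h)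
    (M : ℕ) :
    ∫ y : ℕ → E, ∏ n ∈ Finset.range M, h (y n) ∂(Measure.infinitePi fun _ : ℕ => κ)
      = (∫ x, h x ∂κ) ^ M := by
  have hind : iIndepFun (fun (i : Fin M) (y : ℕ → E) => y (i : ℕ))
      (Measure.infinitePi fun _ : ℕ => κ) := by
    have := iIndepFun_infinitePi (P := fun _ : ℕ => κ) (X := fun _ x => x) (fun _ => measurable_id)
    exact this.precomp Fin.val_injective
  have := hind.integral_fun_prod_comp (f := fun _ x => h x)
    (fun i => (measurable_pi_apply _).aemeasurable) (fun i => hh.aestronglyMeasurable)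
  simp only [Finset.prod_range]
  rw [this]
  have h2 : ∀ i : Fin M, ∫ y : ℕ → E, h (y (i : ℕ)) ∂(Measure.infinitePi fun _ : ℕ => κ)
      = ∫ x, h x ∂κ := by
    intro i
    have h3 := Measure.infinitePi_map_eval (fun _ : ℕ => κ) (i : ℕ)
    conv_rhs => rw [← h3]
    rw [integral_map (measurable_pi_apply _).aemeasurable hh.aestronglyMeasurable]
  simp [h2]

open Complex in
lemma charFun_cnt_aux {ι : Type*} [Fintype ι] (m : ℝ≥0) (κ : Measure E) [IsProbabilityMeasure κ]
    (A : ι → Set E) (hA : ∀ i, MeasurableSet (A i))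
    (hd : Pairwise (Function.onFun Disjoint A)) (t : ι → ℝ) :
    ∫ p, cexp ((∑ i, (t i : ℂ) * (cnt (A i) p : ℂ)) * I) ∂(blk m κ)
      = ∏ i, cexp (m * κ.real (A i) * (cexp (t i * I) - 1)) := by
  classical
  set h : E → ℂ := fun x => ∏ i, (if x ∈ A i then cexp (t i * I) else 1) with hh
  have hhm : Measurable h := by
    refine Finset.measurable_prod _ fun i _ => ?_
    exact Measurable.ite (hA i) measurable_const measurable_const
  have hnorm : ∀ x, ‖h x‖ = 1 := by
    intro x
    simp only [hh, norm_prod]
    refine Finset.prod_eq_one fun i _ => ?_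
    split_ifs
    · rw [Complex.norm_exp_ofReal_mul_I]
    · simp
  have e1 : ∀ p : ℕ × (ℕ → E), cexp ((∑ i, (t i : ℂ) * (cnt (A i) p : ℂ)) * I)
      = ∏ n ∈ Finset.range p.1, h (p.2 n) := by
    intro p
    simp only [hh]
    rw [Finset.prod_comm, Finset.sum_mul, Complex.exp_sum]
    refine Finset.prod_congr rfl fun i _ => ?_
    simp only [cnt]
    push_cast
    rw [Finset.mul_sum, Finset.sum_mul, Complex.exp_sum]
    refine Finset.prod_congr rfl fun n _ => ?_
    by_cases hx : p.2 n ∈ A i
    · simp [hx]
    · simp [hx]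
  have e2 : ∫ x, h x ∂κ = 1 + ∑ i, κ.real (A i) * (cexp (t i * I) - 1) := by
    have e3 : ∀ x, h x = 1 + ∑ i, (A i).indicator (fun _ => cexp (t i * I) - 1) x := by
      intro x
      by_cases hx : ∃ i, x ∈ A i
      · obtain ⟨i, hi⟩ := hx
        have hne : ∀ j, j ≠ i → x ∉ A j := by
          intro j hj hxj
          exact (Set.disjoint_left.mp (hd hj)) hxj hi
        simp only [hh]
        rw [Finset.prod_eq_single i, Finset.sum_eq_single i]
        · simp [hi]
        · intro j _ hj; simp [hne j hj]
        · simp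
        · intro j _ hj; simp [hne j hj]
        · simp
      · push Not at hx
        simp [hh, hx]
    simp_rw [e3]
    rw [integral_add (integrable_const _), integral_finsetSum]
    · simp only [integral_const, probReal_univ, one_smul]
      congr 1
      refine Finset.sum_congr rfl fun i _ => ?_
      rw [integral_indicator_const _ (hA i)]
      simp
    · intro i _
      exact (integrable_const _).indicator (hA i)
    · exact integrable_finsetSum _ fun i _ => (integrable_const _).indicator (hA i)
  simp_rw [e1]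
  have hmeas : Measurable fun p : ℕ × (ℕ → E) => ∏ n ∈ Finset.range p.1, h (p.2 n) := by
    refine measurable_from_prod_countable_right fun M => ?_
    exact Finset.measurable_prod (Finset.range M) fun n _ => hhm.comp (measurable_pi_apply n)
  have hint : Integrable (fun p : ℕ × (ℕ → E) => ∏ n ∈ Finset.range p.1, h (p.2 n)) (blk m κ) := by
    refine Integrable.of_bound hmeas.aestronglyMeasurable 1 (ae_of_all _ fun p => ?_)
    simp [norm_prod, hnorm]
  unfold blk at hint ⊢
  rw [integral_prod _ hint]
  simp only [integral_pow_seq κ h hhm]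
  rw [integral_poissonMeasure]
  have e4 : ∀ n : ℕ, (Real.exp (-(m : ℝ)) * (m : ℝ) ^ n / (n.factorial : ℝ)) • (∫ x, h x ∂κ) ^ n
      = cexp (-(m : ℂ)) * (((m : ℂ) * ∫ x, h x ∂κ) ^ n / (n.factorial : ℂ)) := by
    intro n
    rw [mul_pow, Complex.real_smul]
    push_cast
    ring
  simp_rw [e4]
  rw [tsum_mul_left, (NormedSpace.expSeries_div_hasSum_exp ((m : ℂ) * ∫ x, h x ∂κ)).tsum_eq,
    ← exp_eq_exp_ℂ, ← Complex.exp_add, ← Complex.exp_sum, e2]
  congr 1
  rw [mul_add, Finset.mul_sum]
  simp only [mul_one, neg_add_cancel_left]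
  refine Finset.sum_congr rfl fun i _ => ?_
  ring

open Complex in
lemma map_cnt (m : ℝ≥0) (κ : Measure E) [IsProbabilityMeasure κ] {A : Set E}
    (hA : MeasurableSet A) :
    (blk m κ).map (cnt A) = poissonMeasure (m * (κ A).toNNReal) := by
  have hc : Measurable (cnt A) := measurable_cnt hA
  apply (MeasurableEmbedding.natCast (α := ℝ)).map_injective
  rw [Measure.map_map (by fun_prop) hc]
  apply Measure.ext_of_charFun
  ext t
  rw [charFun_map_cast_poissonMeasure, charFun_apply_real,
    integral_map (by fun_prop) (by fun_prop)]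
  have := charFun_cnt_aux (ι := Unit) m κ (fun _ => A) (fun _ => hA) (fun i j h => absurd rfl h)
    (fun _ => t)
  simp only [Finset.univ_unique, Finset.sum_singleton, Finset.prod_singleton] at this
  simp only [Function.comp_apply]
  have h2 : ∀ p : ℕ × (ℕ → E), cexp ((t : ℂ) * ((cnt A p : ℕ) : ℝ) * I)
      = cexp ((t : ℂ) * ((cnt A p : ℕ) : ℂ) * I) := by intro p; push_cast; rfl
  simp_rw [h2]
  rw [this]
  have h3 : (m : ℂ) * ((κ.real A : ℝ) : ℂ) = ((m * (κ A).toNNReal : ℝ≥0) : ℂ) := by
    rw [NNReal.coe_mul]; push_cast; rfl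
  rw [h3]

open Complex in
lemma indep_cnt {ι : Type*} [Fintype ι] (m : ℝ≥0) (κ : Measure E) [IsProbabilityMeasure κ]
    (A : ι → Set E) (hA : ∀ i, MeasurableSet (A i))
    (hd : Pairwise (Function.onFun Disjoint A)) :
    iIndepFun (fun i => cnt (A i)) (blk m κ) := by
  have hm : ∀ i, Measurable (fun p => (cnt (A i) p : ℝ)) := fun i =>
    (measurable_from_top (f := (Nat.cast : ℕ → ℝ))).comp (measurable_cnt (hA i))
  have key : iIndepFun (fun i p => (cnt (A i) p : ℝ)) (blk m κ) := by
    rw [iIndepFun_iff_charFun_pi (fun i => (hm i).aemeasurable)]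
    intro t
    have hm2 : Measurable (fun p => WithLp.toLp 2 fun i => (cnt (A i) p : ℝ)) :=
      (WithLp.measurable_toLp _ _).comp (measurable_pi_lambda _ hm)
    rw [charFun_apply, integral_map hm2.aemeasurable (by fun_prop)]
    have h1 : ∀ i, charFun ((blk m κ).map fun p => (cnt (A i) p : ℝ)) (t i)
        = cexp (m * κ.real (A i) * (cexp (t i * I) - 1)) := by
      intro i
      have : (blk m κ).map (fun p => (cnt (A i) p : ℝ))
          = (poissonMeasure (m * (κ (A i)).toNNReal)).map (Nat.cast : ℕ → ℝ) := by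
        rw [← map_cnt m κ (hA i), Measure.map_map (by fun_prop) (measurable_cnt (hA i))]
        rfl
      rw [this, charFun_map_cast_poissonMeasure]
      have h3 : (m : ℂ) * ((κ.real (A i) : ℝ) : ℂ) = ((m * (κ (A i)).toNNReal : ℝ≥0) : ℂ) := by
        rw [NNReal.coe_mul]; push_cast; rfl
      rw [h3]
    simp_rw [h1]
    rw [← charFun_cnt_aux m κ A hA hd]
    refine integral_congr_ae (ae_of_all _ fun p => ?_)
    simp only [PiLp.inner_apply, RCLike.inner_apply, conj_trivial]
    push_cast
    rfl
  have := key.comp (g := fun _ x => Nat.floor x) (fun _ => Nat.measurable_floor)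
  refine (iIndepFun_congr fun i => ?_).mp this
  exact ae_of_all _ fun p => by simp
  
end block

end Pool.Agent.Helper86.Ppp
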