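import Mathlib
import Pool.Agent.Helper86.Ppp1

open MeasureTheory ProbabilityTheory Set Filter
open scoped ENNReal NNReal Topology

namespace Pool.Agent.Helper86.Ppp

section indep

lemma iIndepFun_comp_map {ι Ω Ω' : Type*} [MeasurableSpace Ω] [MeasurableSpace Ω'] {𝓧 : ι → Type*}
    [∀ i, MeasurableSpace (𝓧 i)] {P : Measure Ω} {f : Ω → Ω'} (hf : Measurable f)
    {X : (i : ι) → Ω' → 𝓧 i} (mX : ∀ i, Measurable (X i)) (h : iIndepFun X (P.map f)) :
    iIndepFun (fun i ω => X i (f ω)) P := by
  rw [iIndepFun_iff_measure_inter_preimage_eq_mul] at h ⊢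
  intro S sets hs
  have h1 := h S hs
  rw [Measure.map_apply hf (S.measurableSet_biInter fun i hi => mX i (hs i hi))] at h1
  rw [Set.preimage_iInter₂] at h1
  refine h1.trans (Finset.prod_congr rfl fun i hi => ?_)
  rw [Measure.map_apply hf (mX i (hs i hi))]
  rfl

lemma iIndepFun_curry {ι κ Ω 𝓧 : Type*} [MeasurableSpace Ω] [MeasurableSpace 𝓧] {P : Measure Ω}
    {X : ι → κ → Ω → 𝓧} (mX : ∀ i j, Measurable (X i j))
    (h : iIndepFun (fun (p : ι × κ) ω => X p.1 p.2 ω) P) :
    iIndepFun (fun i ω j => X i j ω) P := by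
  have hP : IsProbabilityMeasure P := h.isProbabilityMeasure
  have hpm : ∀ i j, IsProbabilityMeasure (P.map (X i j)) :=
    fun i j => Measure.isProbabilityMeasure_map (mX i j).aemeasurable
  have hi : ∀ i, iIndepFun (X i) P := fun i => by
    have := h.precomp (g := fun j : κ => (i, j)) (fun a b hab => by simpa using hab)
    exact this
  rw [iIndepFun_iff_map_fun_eq_infinitePi_map (by fun_prop)]
  have e1 := h.map_fun_eq_infinitePi_map (fun p : ι × κ => mX p.1 p.2)
  have e2 := Measure.infinitePi_map_curry (fun i j => P.map (X i j))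
  have e3 : P.map (fun ω i j => X i j ω)
      = (P.map (fun ω (p : ι × κ) => X p.1 p.2 ω)).map (MeasurableEquiv.curry ι κ 𝓧) := by
    have hX2 : Measurable (fun ω (p : ι × κ) => X p.1 p.2 ω) :=
      measurable_pi_lambda _ fun p => mX p.1 p.2
    rw [Measure.map_map (MeasurableEquiv.measurable _) hX2]
    rfl
  rw [e3, e1, e2]
  congr 1
  ext1 i
  rw [(hi i).map_fun_eq_infinitePi_map (fun j => mX i j)]

end indep

section glob

variable {E : Type*} [MeasurableSpace E]

/-- the space of the whole construction -/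
abbrev Sp (E : Type*) := ℕ → ℕ × (ℕ → E)

noncomputable def PP (m : ℕ → ℝ≥0) (κ : ℕ → Measure E) [∀ k, IsProbabilityMeasure (κ k)] :
    Measure (Sp E) := Measure.infinitePi fun k => blk (m k) (κ k)

variable (m : ℕ → ℝ≥0) (κ : ℕ → Measure E) [∀ k, IsProbabilityMeasure (κ k)]

instance : IsProbabilityMeasure (PP m κ) := by unfold PP; infer_instance

lemma PP_map_eval (k : ℕ) : (PP m κ).map (fun ω => ω k) = blk (m k) (κ k) :=
  Measure.infinitePi_map_eval (fun k => blk (m k) (κ k)) k

lemma indep_pts : iIndepFun (fun (p : ℕ × ℕ) (ω : Sp E) => (ω p.1).2 p.2) (PP m κ) := by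
  refine iIndepFun_uncurry' (X := fun k n (ω : Sp E) => (ω k).2 n) (by fun_prop) ?_ ?_
  · exact iIndepFun_infinitePi (P := fun k => blk (m k) (κ k)) (X := fun _ p n => p.2 n)
      (fun k => by fun_prop)
  · intro k
    have h1 : iIndepFun (fun (n : ℕ) (p : ℕ × (ℕ → E)) => p.2 n) (blk (m k) (κ k)) := by
      refine iIndepFun_comp_map (f := Prod.snd) measurable_snd (X := fun n (y : ℕ → E) => y n)
        (fun n => measurable_pi_apply n) ?_
      have : (blk (m k) (κ k)).map Prod.snd = Measure.infinitePi fun _ : ℕ => κ k := by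
        unfold blk
        simp
      rw [this]
      exact iIndepFun_infinitePi (P := fun _ : ℕ => κ k) (X := fun _ x => x)
        (fun _ => measurable_id)
    rw [← PP_map_eval m κ k] at h1
    exact iIndepFun_comp_map (Ω := Sp E) (f := fun ω => ω k) (measurable_pi_apply k)
      (X := fun n (p : ℕ × (ℕ → E)) => p.2 n) (fun n => by fun_prop) h1

lemma law_pt (k n : ℕ) : (PP m κ).map (fun ω => (ω k).2 n) = κ k := by
  have : (fun ω : Sp E => (ω k).2 n) = (fun y : ℕ → E => y n) ∘ Prod.snd ∘ (fun ω => ω k) := rfl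
  rw [this, ← Measure.map_map (by fun_prop) (by fun_prop),
    ← Measure.map_map (by fun_prop) (by fun_prop), PP_map_eval]
  have h2 : (blk (m k) (κ k)).map Prod.snd = Measure.infinitePi fun _ : ℕ => κ k := by
    unfold blk
    simp
  rw [h2, Measure.infinitePi_map_eval]

lemma law_num (k : ℕ) : (PP m κ).map (fun ω => (ω k).1) = poissonMeasure (m k) := by
  have : (fun ω : Sp E => (ω k).1) = Prod.fst ∘ (fun ω => ω k) := rfl
  rw [this, ← Measure.map_map (by fun_prop) (by fun_prop), PP_map_eval]
  unfold blk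
  simp

lemma law_cnt {A : Set E} (hA : MeasurableSet A) (k : ℕ) :
    (PP m κ).map (fun ω => cnt A (ω k)) = poissonMeasure (m k * (κ k A).toNNReal) := by
  have : (fun ω : Sp E => cnt A (ω k)) = cnt A ∘ (fun ω => ω k) := rfl
  rw [this, ← Measure.map_map (measurable_cnt hA) (by fun_prop), PP_map_eval, map_cnt _ _ hA]

lemma indep_cnts {ι : Type*} [Fintype ι] (A : ι → Set E) (hA : ∀ i, MeasurableSet (A i))
    (hd : Pairwise (Function.onFun Disjoint A)) :
    iIndepFun (fun i (ω : Sp E) k => cnt (A i) (ω k)) (PP m κ) := by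
  have mc : ∀ i k, Measurable (fun ω : Sp E => cnt (A i) (ω k)) := fun i k =>
    (measurable_cnt (hA i)).comp (measurable_pi_apply k)
  refine iIndepFun_curry (X := fun i k (ω : Sp E) => cnt (A i) (ω k)) mc ?_
  have h0 : iIndepFun (fun (p : ℕ × ι) (ω : Sp E) => cnt (A p.2) (ω p.1)) (PP m κ) := by
    refine iIndepFun_uncurry' (X := fun k i (ω : Sp E) => cnt (A i) (ω k)) (fun k i => mc i k) ?_ ?_
    · exact iIndepFun_infinitePi (P := fun k => blk (m k) (κ k)) (X := fun _ p i => cnt (A i) p)
        (fun k => measurable_pi_lambda _ fun i => measurable_cnt (hA i))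
    · intro k
      have h1 := indep_cnt (m k) (κ k) A hA hd
      rw [← PP_map_eval m κ k] at h1
      exact iIndepFun_comp_map (Ω := Sp E) (f := fun ω => ω k) (measurable_pi_apply k)
        (fun i => measurable_cnt (hA i)) h1
  have := h0.precomp (g := fun p : ι × ℕ => (p.2, p.1)) (fun a b hab => by
    simp only [Prod.mk.injEq] at hab
    exact Prod.ext hab.2 hab.1)
  exact this

lemma indep_cnts_time {A : Set E} (hA : MeasurableSet A) :
    iIndepFun (fun k (ω : Sp E) => cnt A (ω k)) (PP m κ) :=
  iIndepFun_infinitePi (P := fun k => blk (m k) (κ k)) (X := fun _ p => cnt A p)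
    (fun _ => measurable_cnt hA)

/-- partial sums -/
noncomputable def psum (A : Set E) (K : ℕ) (ω : Sp E) : ℕ := ∑ k ∈ Finset.range K, cnt A (ω k)

/-- total count -/
noncomputable def tot (v : ℕ → ℕ) : ℕ∞ := ⨆ K : ℕ, ((∑ k ∈ Finset.range K, v k : ℕ) : ℕ∞)

lemma psum_mono (v : ℕ → ℕ) : Monotone fun K => ∑ k ∈ Finset.range K, v k := by
  intro a b hab
  exact Finset.sum_le_sum_of_subset (Finset.range_mono hab)

lemma tot_eq_coe_iff (v : ℕ → ℕ) (j : ℕ) :
    tot v = j ↔ (∀ K, ∑ k ∈ Finset.range K, v k ≤ j) ∧ ∃ K, ∑ k ∈ Finset.range K, v k = j := by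
  constructor
  · intro h
    have h1 : ∀ K, ∑ k ∈ Finset.range K, v k ≤ j := by
      intro K
      have : ((∑ k ∈ Finset.range K, v k : ℕ) : ℕ∞) ≤ tot v :=
        le_iSup (fun K : ℕ => ((∑ k ∈ Finset.range K, v k : ℕ) : ℕ∞)) K
      rw [h] at this
      exact_mod_cast this
    refine ⟨h1, ?_⟩
    by_contra hne
    push Not at hne
    have h2 : ∀ K, ∑ k ∈ Finset.range K, v k ≤ j - 1 := fun K => by
      have := h1 K; have := hne K; omega
    have h3 : tot v ≤ ((j - 1 : ℕ) : ℕ∞) := by
      unfold tot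
      exact iSup_le fun K => by exact_mod_cast h2 K
    rw [h] at h3
    have h4 : j ≤ j - 1 := by exact_mod_cast h3
    have h5 := hne 0
    simp at h5
    omega
  · rintro ⟨h1, K, hK⟩
    apply le_antisymm
    · unfold tot
      exact iSup_le fun K => by exact_mod_cast h1 K
    · rw [← hK]
      exact le_iSup (fun K : ℕ => ((∑ k ∈ Finset.range K, v k : ℕ) : ℕ∞)) K

lemma measurable_tot : Measurable tot := by
  refine measurable_to_countable' fun x => ?_
  have hj : ∀ j : ℕ, MeasurableSet (tot ⁻¹' {(j : ℕ∞)}) := by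
    intro j
    have : tot ⁻¹' {(j : ℕ∞)} = (⋂ K, {v : ℕ → ℕ | ∑ k ∈ Finset.range K, v k ≤ j}) ∩
        ⋃ K, {v : ℕ → ℕ | ∑ k ∈ Finset.range K, v k = j} := by
      ext v
      simp [tot_eq_coe_iff]
    rw [this]
    have hm : ∀ K, Measurable fun v : ℕ → ℕ => ∑ k ∈ Finset.range K, v k := fun K => by fun_prop
    refine (MeasurableSet.iInter fun K => ?_).inter (MeasurableSet.iUnion fun K => ?_)
    · exact measurableSet_le (hm K) measurable_const
    · exact measurableSet_eq_fun (hm K) measurable_const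
  by_cases hx : x = ⊤
  · have : tot ⁻¹' {x} = (⋃ j : ℕ, tot ⁻¹' {(j : ℕ∞)})ᶜ := by
      ext v
      simp only [mem_preimage, mem_singleton_iff, mem_compl_iff, mem_iUnion, not_exists, hx]
      constructor
      · intro h j hj
        rw [h] at hj
        exact ENat.natCast_ne_top j hj.symm
      · intro h
        by_contra hne
        obtain ⟨j, hj⟩ := ENat.ne_top_iff_exists.mp hne
        exact h j hj.symm
    rw [this]
    exact (MeasurableSet.iUnion hj).compl
  · obtain ⟨j, rfl⟩ := ENat.ne_top_iff_exists.mp hx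
    exact hj j

lemma law_psum {A : Set E} (hA : MeasurableSet A) (K : ℕ) :
    HasLaw (psum A K) (poissonMeasure (∑ k ∈ Finset.range K, m k * (κ k A).toNNReal)) (PP m κ) := by
  have mc : ∀ k, Measurable (fun ω : Sp E => cnt A (ω k)) := fun k =>
    (measurable_cnt hA).comp (measurable_pi_apply k)
  induction K with
  | zero =>
    refine ⟨measurable_const.aemeasurable, ?_⟩
    have h0 : psum A 0 = fun _ : Sp E => 0 := by ext ω; simp [psum]
    rw [h0, Measure.map_const]
    simp only [Finset.range_zero, Finset.sum_empty, measure_univ, one_smul]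
    refine (Measure.ext_of_singleton fun n => ?_)
    rw [poissonMeasure_singleton]
    rcases n with _ | n <;> simp
  | succ K ih =>
    have h1 : psum A (K + 1) = psum A K + fun ω : Sp E => cnt A (ω K) := by
      ext ω; simp [psum, Finset.sum_range_succ]
    rw [h1, Finset.sum_range_succ]
    refine IndepFun.hasLaw_add_poissonMeasure ?_ ih ⟨(mc K).aemeasurable, law_cnt m κ hA K⟩
    have h2 := (indep_cnts_time m κ hA).indepFun_sum_range_succ mc K
    have h3 : (∑ j ∈ Finset.range K, fun ω : Sp E => cnt A (ω j)) = psum A K := by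
      ext ω; simp [psum]
    rwa [h3] at h2

lemma measurable_tot_cnt {A : Set E} (hA : MeasurableSet A) :
    Measurable fun ω : Sp E => tot fun k => cnt A (ω k) := by
  refine measurable_tot.comp (measurable_pi_lambda _ fun k => ?_)
  exact (measurable_cnt hA).comp (measurable_pi_apply k)

lemma law_tot {A : Set E} (hA : MeasurableSet A) {l : ℝ≥0}
    (hl : HasSum (fun k => m k * (κ k A).toNNReal) l) (j : ℕ) :
    PP m κ {ω | (tot fun k => cnt A (ω k)) = j}
      = ENNReal.ofReal (Real.exp (-(l : ℝ)) * (l : ℝ) ^ j / j.factorial) := by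
  have mp : ∀ K, Measurable (psum (E := E) A K) := fun K => by
    unfold psum
    exact Finset.measurable_sum _ fun k _ => (measurable_cnt hA).comp (measurable_pi_apply k)
  have h1 : Tendsto (fun K => PP m κ {ω | psum A K ω = j}) atTop
      (𝓝 (PP m κ {ω | (tot fun k => cnt A (ω k)) = j})) := by
    refine tendsto_measure_of_ae_tendsto_indicator_of_isFiniteMeasure atTop
      (measurable_tot_cnt hA (measurableSet_singleton _))
      (fun K => mp K (measurableSet_singleton _)) (ae_of_all _ fun ω => ?_)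
    simp only [mem_ofPred_eq]
    by_cases hj : (tot fun k => cnt A (ω k)) = j
    · obtain ⟨h1, K, hK⟩ := (tot_eq_coe_iff _ _).mp hj
      filter_upwards [eventually_ge_atTop K] with K' hK'
      simp only [hj, iff_true]
      refine le_antisymm (h1 K') ?_
      rw [← hK]
      exact psum_mono _ hK'
    · by_cases hbig : ∃ K, j < psum A K ω
      · obtain ⟨K, hK⟩ := hbig
        filter_upwards [eventually_ge_atTop K] with K' hK'
        simp only [hj, iff_false]
        have := psum_mono (fun k => cnt A (ω k)) hK'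
        have h2 : psum A K ω ≤ psum A K' ω := this
        omega
      · push Not at hbig
        refine Eventually.of_forall fun K => ?_
        simp only [hj, iff_false]
        intro h
        exact hj ((tot_eq_coe_iff _ _).mpr ⟨hbig, K, h⟩)
  have h2 : ∀ K, PP m κ {ω | psum A K ω = j}
      = ENNReal.ofReal (Real.exp (-((∑ k ∈ Finset.range K, m k * (κ k A).toNNReal : ℝ≥0) : ℝ)) *
        ((∑ k ∈ Finset.range K, m k * (κ k A).toNNReal : ℝ≥0) : ℝ) ^ j / j.factorial) := by
    intro K
    have h3 := (law_psum m κ hA K).map_eq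
    have h4 : PP m κ {ω | psum A K ω = j} = (PP m κ).map (psum A K) {j} := by
      rw [Measure.map_apply (mp K) (measurableSet_singleton _)]
      rfl
    rw [h4, h3, poissonMeasure_singleton]
  simp_rw [h2] at h1
  have h5 : Tendsto (fun K => ((∑ k ∈ Finset.range K, m k * (κ k A).toNNReal : ℝ≥0) : ℝ)) atTop
      (𝓝 (l : ℝ)) := by
    have := hl.tendsto_sum_nat
    exact (NNReal.continuous_coe.tendsto l).comp this
  have h6 : Tendsto (fun K => ENNReal.ofReal (Real.exp (-((∑ k ∈ Finset.range K,
      m k * (κ k A).toNNReal : ℝ≥0) : ℝ)) *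
        ((∑ k ∈ Finset.range K, m k * (κ k A).toNNReal : ℝ≥0) : ℝ) ^ j / j.factorial)) atTop
      (𝓝 (ENNReal.ofReal (Real.exp (-(l : ℝ)) * (l : ℝ) ^ j / j.factorial))) := by
    have hc : Continuous fun x : ℝ => ENNReal.ofReal (Real.exp (-x) * x ^ j / j.factorial) := by
      refine ENNReal.continuous_ofReal.comp ?_
      fun_prop
    exact (hc.tendsto (l : ℝ)).comp h5
  exact tendsto_nhds_unique h1 h6

end glob

end Pool.Agent.Helper86.Ppp
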