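import Mathlib
import Pool.Agent.Helper86.Ppp2

open MeasureTheory ProbabilityTheory Set Filter
open scoped ENNReal NNReal Topology

namespace Pool.Agent.Helper86.Ppp

section good

variable {E : Type*} [MeasurableSpace E] (τ : E → ℝ)

/-- No two different used points have the same time. -/
def Good (ω : Sp E) : Prop :=
  ∀ p q : ℕ × ℕ, p ≠ q → ¬ (p.2 < (ω p.1).1 ∧ q.2 < (ω q.1).1 ∧
    τ ((ω p.1).2 p.2) = τ ((ω q.1).2 q.2))

open Classical in
/-- The point set. -/
noncomputable def NN (ω : Sp E) : Set E :=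
  if Good τ ω then {x | ∃ p : ℕ × ℕ, p.2 < (ω p.1).1 ∧ (ω p.1).2 p.2 = x} else ∅

lemma measurableSet_good (hτ : Measurable τ) : MeasurableSet {ω : Sp E | Good τ ω} := by
  have : {ω : Sp E | Good τ ω} = ⋂ (p : ℕ × ℕ), ⋂ (q : ℕ × ℕ), ⋂ (_ : p ≠ q),
      {ω : Sp E | p.2 < (ω p.1).1 ∧ q.2 < (ω q.1).1 ∧
        τ ((ω p.1).2 p.2) = τ ((ω q.1).2 q.2)}ᶜ := by
    ext ω
    simp [Good]
  rw [this]
  refine MeasurableSet.iInter fun p => MeasurableSet.iInter fun q => MeasurableSet.iInter fun _ => ?_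
  refine MeasurableSet.compl ?_
  have h1 : ∀ k, Measurable fun ω : Sp E => (ω k).1 := fun k => by fun_prop
  refine (measurableSet_lt measurable_const (h1 p.1)).inter
    ((measurableSet_lt measurable_const (h1 q.1)).inter ?_)
  exact measurableSet_eq_fun (by fun_prop) (by fun_prop)

variable (m : ℕ → ℝ≥0) (κ : ℕ → Measure E) [∀ k, IsProbabilityMeasure (κ k)]

lemma ae_good (hτ : Measurable τ) (hat : ∀ k, m k ≠ 0 → ∀ x, κ k (τ ⁻¹' {x}) = 0) :
    ∀ᵐ ω ∂(PP m κ), Good τ ω := by
  have h1 : ∀ p q : ℕ × ℕ, p ≠ q → ∀ᵐ ω ∂(PP m κ), ¬ (p.2 < (ω p.1).1 ∧ q.2 < (ω q.1).1 ∧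
      τ ((ω p.1).2 p.2) = τ ((ω q.1).2 q.2)) := by
    intro p q hpq
    by_cases hm : m p.1 = 0
    · have h2 : PP m κ {ω | (ω p.1).1 = 0} = 1 := by
        have h3 : PP m κ {ω | (ω p.1).1 = 0} = (PP m κ).map (fun ω => (ω p.1).1) {0} := by
          rw [Measure.map_apply (by fun_prop) (measurableSet_singleton _)]
          rfl
        rw [h3, law_num, hm, poissonMeasure_singleton]
        simp
      have h4 : ∀ᵐ ω ∂(PP m κ), (ω p.1).1 = 0 := by
        have hmeas : MeasurableSet {ω : Sp E | (ω p.1).1 = 0} :=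
          (show Measurable fun ω : Sp E => (ω p.1).1 by fun_prop) (measurableSet_singleton 0)
        rw [ae_iff]
        exact (prob_compl_eq_zero_iff hmeas).mpr h2
      filter_upwards [h4] with ω hω h
      have := h.1
      omega
    · have hind : IndepFun (fun ω : Sp E => (ω q.1).2 q.2) (fun ω : Sp E => (ω p.1).2 p.2)
          (PP m κ) := (indep_pts m κ).indepFun (Ne.symm hpq)
      have hmp : ∀ p : ℕ × ℕ, Measurable fun ω : Sp E => (ω p.1).2 p.2 := fun p => by fun_prop
      have hlaw := hind.map_prod_eq_prod_map_map (hmp q).aemeasurable (hmp p).aemeasurable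
      rw [law_pt, law_pt] at hlaw
      have hms : MeasurableSet {x : E × E | τ x.2 = τ x.1} :=
        measurableSet_eq_fun (by fun_prop) (by fun_prop)
      have h5 : ((κ q.1).prod (κ p.1)) {x : E × E | τ x.2 = τ x.1} = 0 := by
        rw [Measure.measure_prod_null hms]
        refine ae_of_all _ fun y => ?_
        exact hat p.1 hm (τ y)
      rw [← hlaw, Measure.map_apply (by fun_prop) hms] at h5
      have h6 : ∀ᵐ ω ∂(PP m κ), ¬ τ ((ω p.1).2 p.2) = τ ((ω q.1).2 q.2) := by
        rw [ae_iff]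
        simpa using h5
      filter_upwards [h6] with ω hω h
      exact hω h.2.2
  have h2 : ∀ᵐ ω ∂(PP m κ), ∀ p q : ℕ × ℕ, p ≠ q → ¬ (p.2 < (ω p.1).1 ∧ q.2 < (ω q.1).1 ∧
      τ ((ω p.1).2 p.2) = τ ((ω q.1).2 q.2)) := by
    rw [ae_all_iff]; intro p
    rw [ae_all_iff]; intro q
    by_cases hpq : p = q
    · exact ae_of_all _ fun ω h => absurd hpq h
    · filter_upwards [h1 p q hpq] with ω hω _
      exact hω
  exact h2

omit [MeasurableSpace E] in
lemma cnt_eq_card (A : Set E) [DecidablePred (· ∈ A)] (p : ℕ × (ℕ → E)) :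
    cnt A p = ((Finset.range p.1).filter fun n => p.2 n ∈ A).card := by
  rw [cnt, Finset.card_filter]
  refine Finset.sum_congr rfl fun n _ => ?_
  by_cases h : p.2 n ∈ A <;> simp [h]

omit [MeasurableSpace E] in
lemma encard_NN {ω : Sp E} (hω : Good τ ω) (A : Set E) :
    (NN τ ω ∩ A).encard = tot fun k => cnt A (ω k) := by
  classical
  set D : Set (ℕ × ℕ) := {p | p.2 < (ω p.1).1 ∧ (ω p.1).2 p.2 ∈ A} with hD
  have himg : NN τ ω ∩ A = (fun p : ℕ × ℕ => (ω p.1).2 p.2) '' D := by
    ext x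
    simp only [NN, if_pos hω, mem_inter_iff, mem_image, hD, mem_ofPred_eq]
    constructor
    · rintro ⟨⟨p, hp, rfl⟩, hx⟩
      exact ⟨p, ⟨hp, hx⟩, rfl⟩
    · rintro ⟨p, ⟨hp, hx⟩, rfl⟩
      exact ⟨⟨p, hp, rfl⟩, hx⟩
  have hinj : InjOn (fun p : ℕ × ℕ => (ω p.1).2 p.2) D := by
    intro p hp q hq hpq
    by_contra hne
    exact hω p q hne ⟨hp.1, hq.1, by simpa using congrArg τ hpq⟩
  rw [himg, hinj.encard_image]
  have hDK : ∀ K, (D ∩ {p | p.1 < K}).encard = ((∑ k ∈ Finset.range K, cnt A (ω k) : ℕ) : ℕ∞) := by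
    intro K
    have : D ∩ {p | p.1 < K} = (((Finset.range K).sigma fun k =>
        (Finset.range (ω k).1).filter fun n => (ω k).2 n ∈ A).map
        (Equiv.sigmaEquivProd ℕ ℕ).toEmbedding : Finset (ℕ × ℕ)) := by
      ext ⟨k, n⟩
      simp only [hD, mem_inter_iff, mem_ofPred_eq, Finset.coe_map, mem_image, Finset.mem_coe,
        Finset.mem_sigma, Finset.mem_range, Finset.mem_filter, Equiv.coe_toEmbedding,
        Sigma.exists, Equiv.sigmaEquivProd_apply, Prod.mk.injEq]
      constructor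
      · rintro ⟨⟨h1, h2⟩, h3⟩
        exact ⟨k, n, ⟨h3, h1, h2⟩, rfl, rfl⟩
      · rintro ⟨k', n', ⟨h3, h1, h2⟩, rfl, rfl⟩
        exact ⟨⟨h1, h2⟩, h3⟩
    rw [this, Set.encard_coe_eq_coe_finsetCard, Finset.card_map, Finset.card_sigma]
    congr 1
    exact Finset.sum_congr rfl fun k _ => (cnt_eq_card A (ω k)).symm
  apply le_antisymm
  · by_contra hlt
    push Not at hlt
    have hne : (tot fun k => cnt A (ω k)) ≠ ⊤ := ne_top_of_lt hlt
    obtain ⟨j, hj⟩ := ENat.ne_top_iff_exists.mp hne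
    rw [← hj] at hlt
    have hle : ((j + 1 : ℕ) : ℕ∞) ≤ D.encard := by
      have := Order.add_one_le_of_lt hlt
      exact_mod_cast this
    obtain ⟨t, htD, ht⟩ := exists_subset_encard_eq hle
    have htf : t.Finite := Set.finite_of_encard_eq_coe ht
    obtain ⟨K, hK⟩ : ∃ K, ∀ p ∈ t, p.1 < K := by
      obtain ⟨B, hB⟩ := (htf.image Prod.fst).bddAbove
      exact ⟨B + 1, fun p hp => Nat.lt_succ_of_le (hB (mem_image_of_mem _ hp))⟩
    have h1 : t ⊆ D ∩ {p | p.1 < K} := fun p hp => ⟨htD hp, hK p hp⟩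
    have h2 := Set.encard_le_encard h1
    rw [ht, hDK K] at h2
    have h3 : ((∑ k ∈ Finset.range K, cnt A (ω k) : ℕ) : ℕ∞) ≤ tot fun k => cnt A (ω k) :=
      le_iSup (fun K : ℕ => ((∑ k ∈ Finset.range K, cnt A (ω k) : ℕ) : ℕ∞)) K
    rw [← hj] at h3
    have h4 : j + 1 ≤ j := by exact_mod_cast h2.trans h3
    omega
  · unfold tot
    refine iSup_le fun K => ?_
    rw [← hDK K]
    exact Set.encard_le_encard inter_subset_left

lemma measurable_NN_count (hτ : Measurable τ) {A : Set E} (hA : MeasurableSet A) :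
    Measurable fun ω => (NN τ ω ∩ A).encard := by
  classical
  have : (fun ω => (NN τ ω ∩ A).encard)
      = fun ω => if Good τ ω then (tot fun k => cnt A (ω k)) else 0 := by
    ext1 ω
    by_cases h : Good τ ω
    · rw [if_pos h, encard_NN τ h]
    · rw [if_neg h]
      simp [NN, if_neg h]
  rw [this]
  exact Measurable.ite (measurableSet_good τ hτ) (measurable_tot_cnt hA) measurable_const

end good

/-- Existence of Poisson point processes (as random sets) with sigma-finite intensity without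
atoms of `τ`. -/
theorem exists_poisson {E : Type*} [MeasurableSpace E] [Nonempty E] (μ : Measure E)
    [SigmaFinite μ]
    (τ : E → ℝ) (hτ : Measurable τ) (hat : ∀ x : ℝ, μ (τ ⁻¹' {x}) = 0) :
    ∃ (P : Measure (Sp E)) (N : Sp E → Set E), IsProbabilityMeasure P ∧
      (∀ A, MeasurableSet A → Measurable fun ω => (N ω ∩ A).encard) ∧
      (∀ A, MeasurableSet A → μ A ≠ ∞ → ∀ k : ℕ, P {ω | (N ω ∩ A).encard = k} =
        ENNReal.ofReal (Real.exp (-(μ A).toReal) * (μ A).toReal ^ k / k.factorial)) ∧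
      (∀ (n : ℕ) (A : Fin n → Set E), (∀ i, MeasurableSet (A i)) →
        Pairwise (Function.onFun Disjoint A) → iIndepFun (fun i ω => (N ω ∩ A i).encard) P) := by
  classical
  set S : ℕ → Set E := disjointed (spanningSets μ) with hS
  have hSm : ∀ k, MeasurableSet (S k) := fun k =>
    MeasurableSet.disjointed (measurableSet_spanningSets μ) k
  have hSf : ∀ k, μ (S k) ≠ ∞ := fun k =>
    ((measure_mono (disjointed_subset _ k)).trans_lt (measure_spanningSets_lt_top μ k)).ne
  have hSd : Pairwise (Function.onFun Disjoint S) := disjoint_disjointed _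
  have hSu : ⋃ k, S k = univ := by
    rw [hS, iUnion_disjointed, iUnion_spanningSets]
  set m : ℕ → ℝ≥0 := fun k => (μ (S k)).toNNReal with hm
  have hm0 : ∀ k, m k = 0 ↔ μ (S k) = 0 := fun k => by
    simp [hm, ENNReal.toNNReal_eq_zero_iff, hSf k]
  set κ : ℕ → Measure E := fun k => if m k = 0 then Measure.dirac (Classical.arbitrary E)
    else (μ (S k))⁻¹ • μ.restrict (S k) with hκ
  have hκp : ∀ k, IsProbabilityMeasure (κ k) := by
    intro k
    by_cases h : m k = 0
    · simp only [hκ, if_pos h]; infer_instance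
    · simp only [hκ, if_neg h]
      refine ⟨?_⟩
      rw [Measure.smul_apply, Measure.restrict_apply_univ, smul_eq_mul]
      exact ENNReal.inv_mul_cancel (fun h0 => h ((hm0 k).mpr h0)) (hSf k)
  have hκA : ∀ k A, MeasurableSet A → (m k * (κ k A).toNNReal) = (μ (A ∩ S k)).toNNReal := by
    intro k A hA
    by_cases h : m k = 0
    · rw [h, zero_mul]
      have h0 : μ (A ∩ S k) = 0 := measure_mono_null inter_subset_right ((hm0 k).mp h)
      rw [h0]; rfl
    · simp only [hκ, if_neg h, Measure.smul_apply, Measure.restrict_apply hA, smul_eq_mul]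
      have h1 : m k = (μ (S k)).toNNReal := rfl
      rw [h1, ← ENNReal.toNNReal_mul, ← mul_assoc, ENNReal.mul_inv_cancel
        (fun h0 => h ((hm0 k).mpr h0)) (hSf k), one_mul]
  have hsum : ∀ A, MeasurableSet A → μ A ≠ ∞ →
      HasSum (fun k => m k * (κ k A).toNNReal) (μ A).toNNReal := by
    intro A hA hfin
    simp_rw [fun k => hκA k A hA]
    have h1 : μ A = ∑' k, μ (A ∩ S k) := by
      rw [← measure_iUnion (fun i j hij => ((hSd hij).mono inter_subset_right inter_subset_right))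
        (fun k => hA.inter (hSm k)), ← inter_iUnion, hSu, inter_univ]
    have h2 : ∀ k, μ (A ∩ S k) ≠ ∞ := fun k =>
      ((measure_mono inter_subset_left).trans_lt (lt_top_iff_ne_top.mpr hfin)).ne
    have h3 : HasSum (fun k => μ (A ∩ S k)) (μ A) := by
      rw [h1]; exact ENNReal.summable.hasSum
    have h4 : HasSum (fun k => (((μ (A ∩ S k)).toNNReal : ℝ≥0) : ℝ≥0∞))
        (((μ A).toNNReal : ℝ≥0) : ℝ≥0∞) := by
      simpa [ENNReal.coe_toNNReal, h2, hfin] using h3
    exact ENNReal.hasSum_coe.mp h4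
  have hat' : ∀ k, m k ≠ 0 → ∀ x, κ k (τ ⁻¹' {x}) = 0 := by
    intro k hk x
    simp only [hκ, if_neg hk, Measure.smul_apply, smul_eq_mul]
    rw [Measure.restrict_apply (hτ (measurableSet_singleton x)),
      measure_mono_null inter_subset_left (hat x), mul_zero]
  have hgood := ae_good τ m κ hτ hat'
  refine ⟨PP m κ, NN τ, inferInstance, ?_⟩
  refine ⟨fun A hA => measurable_NN_count τ hτ hA, ?_, ?_⟩
  · intro A hA hfin k
    have h1 : PP m κ {ω | (NN τ ω ∩ A).encard = k}
        = PP m κ {ω | (tot fun k => cnt A (ω k)) = k} := by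
      refine measure_congr ?_
      filter_upwards [hgood] with ω hω
      simp only [eq_iff_iff]
      change (NN τ ω ∩ A).encard = k ↔ _
      rw [encard_NN τ hω]
      rfl
    rw [h1, law_tot m κ hA (hsum A hA hfin) k]
    rfl
  · intro n A hA hd
    have h1 := (indep_cnts m κ A hA hd).comp (g := fun _ v => tot v) (fun _ => measurable_tot)
    refine (iIndepFun_congr fun i => ?_).mp h1
    filter_upwards [hgood] with ω hω
    rw [encard_NN τ hω]
    rfl

end Pool.Agent.Helper86.Ppp
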