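import Mathlib

set_option autoImplicit false
set_option linter.unusedSectionVars false

namespace Pool.Agent.Helper86

open Finset

section basic

variable {α : Type*} [Fintype α] [DecidableEq α]

/-- weight of a subset under the binomial random subset of density `p` -/
noncomputable def wt (p : ℝ) (F : Finset α) : ℝ :=
  p ^ F.card * (1 - p) ^ (Fintype.card α - F.card)

/-- expectation with respect to the binomial random subset -/
noncomputable def Ex (p : ℝ) (f : Finset α → ℝ) : ℝ := ∑ F : Finset α, wt p F * f F

/-- indicator of a proposition -/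
noncomputable def ind (P : Prop) : ℝ := by
  classical exact if P then 1 else 0

lemma ind_of_true {P : Prop} (h : P) : ind P = 1 := by
  unfold ind; rw [if_pos h]

lemma ind_of_false {P : Prop} (h : ¬ P) : ind P = 0 := by
  unfold ind; rw [if_neg h]

lemma ind_nonneg (P : Prop) : 0 ≤ ind P := by
  unfold ind; split_ifs <;> norm_num

lemma ind_le_one (P : Prop) : ind P ≤ 1 := by
  unfold ind; split_ifs <;> norm_num

lemma ind_mono {P Q : Prop} (h : P → Q) : ind P ≤ ind Q := by
  by_cases hP : P
  · rw [ind_of_true hP, ind_of_true (h hP)]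
  · rw [ind_of_false hP]; exact ind_nonneg Q

lemma ind_and (P Q : Prop) : ind (P ∧ Q) = ind P * ind Q := by
  by_cases hP : P
  · by_cases hQ : Q
    · rw [ind_of_true ⟨hP, hQ⟩, ind_of_true hP, ind_of_true hQ]; norm_num
    · rw [ind_of_false (fun h => hQ h.2), ind_of_false hQ]; ring
  · rw [ind_of_false (fun h => hP h.1), ind_of_false hP]; ring

lemma ind_not (P : Prop) : ind (¬ P) = 1 - ind P := by
  by_cases hP : P
  · rw [ind_of_true hP, ind_of_false (not_not.mpr hP)]; ring
  · rw [ind_of_false hP, ind_of_true hP]; ring

lemma ind_or_le (P Q : Prop) : ind (P ∨ Q) ≤ ind P + ind Q := by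
  by_cases hP : P
  · have := ind_nonneg Q
    have := ind_le_one (P ∨ Q)
    rw [ind_of_true hP]; linarith
  · by_cases hQ : Q
    · have := ind_le_one (P ∨ Q)
      rw [ind_of_false hP, ind_of_true hQ]; linarith
    · rw [ind_of_false hP, ind_of_false hQ, ind_of_false (by tauto)]; norm_num

lemma wt_nonneg {p : ℝ} (h0 : 0 ≤ p) (h1 : p ≤ 1) (F : Finset α) : 0 ≤ wt p F := by
  unfold wt
  have : 0 ≤ 1 - p := by linarith
  positivity

lemma sum_wt (p : ℝ) : ∑ F : Finset α, wt p F = 1 := by
  have h := Finset.sum_pow_mul_eq_add_pow p (1 - p) (Finset.univ : Finset α)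
  rw [Finset.powerset_univ, Finset.card_univ] at h
  unfold wt
  rw [h]; simp

lemma Ex_const (p c : ℝ) : Ex (α := α) p (fun _ => c) = c := by
  unfold Ex
  rw [← Finset.sum_mul, sum_wt, one_mul]

lemma Ex_mono {p : ℝ} (h0 : 0 ≤ p) (h1 : p ≤ 1) {f g : Finset α → ℝ} (h : ∀ F, f F ≤ g F) :
    Ex p f ≤ Ex p g := by
  unfold Ex
  exact Finset.sum_le_sum (fun F _ => mul_le_mul_of_nonneg_left (h F) (wt_nonneg h0 h1 F))

lemma Ex_add (p : ℝ) (f g : Finset α → ℝ) :
    Ex p (fun F => f F + g F) = Ex p f + Ex p g := by
  unfold Ex
  rw [← Finset.sum_add_distrib]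
  exact Finset.sum_congr rfl (fun F _ => by ring)

lemma Ex_sub (p : ℝ) (f g : Finset α → ℝ) :
    Ex p (fun F => f F - g F) = Ex p f - Ex p g := by
  unfold Ex
  rw [← Finset.sum_sub_distrib]
  exact Finset.sum_congr rfl (fun F _ => by ring)

lemma Ex_const_mul (p c : ℝ) (f : Finset α → ℝ) :
    Ex p (fun F => c * f F) = c * Ex p f := by
  unfold Ex
  rw [Finset.mul_sum]
  exact Finset.sum_congr rfl (fun F _ => by ring)

lemma Ex_sum (p : ℝ) {ι : Type*} (s : Finset ι) (f : ι → Finset α → ℝ) :
    Ex p (fun F => ∑ i ∈ s, f i F) = ∑ i ∈ s, Ex p (f i) := by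
  unfold Ex
  rw [Finset.sum_comm]
  exact Finset.sum_congr rfl (fun F _ => by rw [Finset.mul_sum])

lemma wt_insert {p : ℝ} {c : α} {F : Finset α} (hc : c ∉ F) :
    (1 - p) * wt p (insert c F) = p * wt p F := by
  unfold wt
  rw [Finset.card_insert_of_notMem hc]
  have hlt : F.card < Fintype.card α := by
    have : (insert c F).card ≤ Fintype.card α := Finset.card_le_univ _
    rw [Finset.card_insert_of_notMem hc] at this
    omega
  have h2 : Fintype.card α - F.card = (Fintype.card α - (F.card + 1)) + 1 := by omega
  rw [h2, pow_succ, pow_succ]; ring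

/-- a sum over all subsets split according to a point -/
lemma sum_split_point (c : α) (f : Finset α → ℝ) :
    ∑ F : Finset α, f F = ∑ F ∈ (Finset.univ.erase c).powerset, (f F + f (insert c F)) := by
  have h := Finset.sum_powerset_insert (s := Finset.univ.erase c) (a := c)
    (Finset.notMem_erase c _) f
  rw [Finset.insert_erase (Finset.mem_univ c), Finset.powerset_univ] at h
  rw [h, Finset.sum_add_distrib]

lemma Ex_single (p : ℝ) (c : α) (g : Finset α → ℝ) :
    Ex p (fun F => ind (c ∈ F) * g (F.erase c)) = p * Ex p (fun F => g (F.erase c)) := by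
  unfold Ex
  rw [sum_split_point c, sum_split_point c, Finset.mul_sum]
  refine Finset.sum_congr rfl (fun F hF => ?_)
  have hc : c ∉ F := by
    intro h
    have := (Finset.mem_powerset.mp hF) h
    exact Finset.notMem_erase c _ this
  have h1 : (insert c F).erase c = F := Finset.erase_insert hc
  have h2 : F.erase c = F := Finset.erase_eq_of_notMem hc
  beta_reduce
  rw [h1, h2, ind_of_false hc, ind_of_true (Finset.mem_insert_self c F)]
  have := wt_insert (p := p) hc
  linear_combination (g F) * this

lemma Ex_superset (p : ℝ) (S : Finset α) (g : Finset α → ℝ) :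
    Ex p (fun F => ind (S ⊆ F) * g (F \ S)) = p ^ S.card * Ex p (fun F => g (F \ S)) := by
  induction S using Finset.induction_on generalizing g with
  | empty =>
    simp only [Finset.card_empty, pow_zero, one_mul]
    congr 1
    funext F
    rw [ind_of_true (Finset.empty_subset F), one_mul]
  | insert c S hc ih =>
    rw [Finset.card_insert_of_notMem hc]
    have e1 : (fun F : Finset α => ind (insert c S ⊆ F) * g (F \ insert c S))
        = (fun F => ind (c ∈ F) * (fun F' => ind (S ⊆ F') * g (F' \ S)) (F.erase c)) := by
      funext F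
      have h1 : (insert c S ⊆ F) ↔ (c ∈ F ∧ S ⊆ F.erase c) := by
        rw [Finset.insert_subset_iff, Finset.subset_erase]
        tauto
      have h2 : F \ insert c S = F.erase c \ S := by
        ext x; simp only [Finset.mem_sdiff, Finset.mem_insert, Finset.mem_erase]; tauto
      have h3 : ind (insert c S ⊆ F) = ind (c ∈ F) * ind (S ⊆ F.erase c) := by
        rw [← ind_and]; congr 1; exact propext h1
      rw [h3, h2]; simp only; ring
    rw [e1, Ex_single p c (fun F' => ind (S ⊆ F') * g (F' \ S))]
    have e2 : (fun F : Finset α => (fun F' => ind (S ⊆ F') * g (F' \ S)) (F.erase c))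
        = (fun F => ind (S ⊆ F) * (fun F' => g (F'.erase c)) (F \ S)) := by
      funext F
      have h1 : (S ⊆ F.erase c) ↔ (S ⊆ F) := by
        rw [Finset.subset_erase]; tauto
      have h2 : F.erase c \ S = (F \ S).erase c := by
        ext x; simp only [Finset.mem_sdiff, Finset.mem_erase]; tauto
      simp only
      rw [h2]; congr 2; exact propext h1
    rw [e2, ih (fun F' => g (F'.erase c))]
    have e3 : (fun F : Finset α => (fun F' => g (F'.erase c)) (F \ S))
        = (fun F => g (F \ insert c S)) := by
      funext F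
      have h2 : F \ insert c S = (F \ S).erase c := by
        ext x; simp only [Finset.mem_sdiff, Finset.mem_insert, Finset.mem_erase]; tauto
      rw [h2]
    rw [e3, pow_succ]; ring

lemma Ex_subset (p : ℝ) (S : Finset α) :
    Ex p (fun F => ind (S ⊆ F)) = p ^ S.card := by
  have h := Ex_superset p S (fun _ => 1)
  simp only [mul_one] at h
  rw [h, Ex_const, mul_one]

lemma Ex_nonneg {p : ℝ} (h0 : 0 ≤ p) (h1 : p ≤ 1) {f : Finset α → ℝ} (h : ∀ F, 0 ≤ f F) :
    0 ≤ Ex p f := by
  unfold Ex
  exact Finset.sum_nonneg (fun F _ => mul_nonneg (wt_nonneg h0 h1 F) (h F))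

end basic

section order

variable {α : Type*} [Fintype α] [DecidableEq α]

/-- the first `m` elements of an ordering -/
def firstm (e : Fin (Nat.card α) ≃ α) (m : ℕ) : Finset α :=
  Finset.univ.filter (fun c => ((e.symm c : Fin _) : ℕ) < m)

lemma card_firstm (e : Fin (Nat.card α) ≃ α) {m : ℕ} (hm : m ≤ Nat.card α) :
    (firstm e m).card = m := by
  have h1 : firstm e m = (Finset.univ.filter (fun i : Fin (Nat.card α) => (i : ℕ) < m)).map
      e.toEmbedding := by
    ext c
    simp only [firstm, Finset.mem_filter, Finset.mem_univ, true_and, Finset.mem_map,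
      Equiv.coe_toEmbedding]
    constructor
    · intro h
      exact ⟨e.symm c, h, by simp⟩
    · rintro ⟨i, hi, rfl⟩
      simpa using hi
  rw [h1, Finset.card_map]
  have h2 : (Finset.univ.filter (fun i : Fin (Nat.card α) => (i : ℕ) < m)).card = m := by
    have := Fin.card_filter_val_lt (n := Nat.card α) (m := m)
    rw [this]; omega
  exact h2

lemma firstm_trans (e : Fin (Nat.card α) ≃ α) (π : Equiv.Perm α) (m : ℕ) :
    firstm (e.trans π) m = (firstm e m).map π.toEmbedding := by
  ext c
  unfold firstm
  rw [Finset.mem_filter, Finset.mem_map]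
  simp only [Finset.mem_filter, Finset.mem_univ, true_and,
    Equiv.coe_toEmbedding, Equiv.symm_trans_apply]
  constructor
  · intro h
    exact ⟨π.symm c, h, by simp⟩
  · rintro ⟨i, hi, rfl⟩
    simpa using hi

lemma exists_perm_map {S T : Finset α} (h : S.card = T.card) :
    ∃ π : Equiv.Perm α, S.map π.toEmbedding = T := by
  classical
  obtain ⟨π, hπ⟩ : ∃ π : Equiv.Perm α, ∀ x, x ∈ S ↔ π x ∈ T := by
    have e1 : S ≃ T := Finset.equivOfCardEq h
    have hc : Fintype.card {x // x ∉ S} = Fintype.card {x // x ∉ T} := by
      have a1 := Fintype.card_subtype_compl (fun x => x ∈ S)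
      have a2 := Fintype.card_subtype_compl (fun x => x ∈ T)
      simp only [Fintype.card_coe] at a1 a2
      rw [a1, a2, h]
    have e2 : {x // ¬ x ∈ S} ≃ {x // ¬ x ∈ T} := Fintype.equivOfCardEq hc
    refine ⟨Equiv.subtypeCongr (p := fun x => x ∈ S) (q := fun x => x ∈ T) e1 e2, fun x => ?_⟩
    by_cases hx : x ∈ S
    · simp only [hx, true_iff]
      rw [Equiv.subtypeCongr]
      simp only [Equiv.trans_apply, Equiv.sumCompl_symm_apply_of_pos hx]
      simp
    · simp only [hx, false_iff]
      rw [Equiv.subtypeCongr]
      simp only [Equiv.trans_apply, Equiv.sumCompl_symm_apply_of_neg hx]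
      simpa using (e2 ⟨x, hx⟩).2
  refine ⟨π, ?_⟩
  ext y
  simp only [Finset.mem_map, Equiv.coe_toEmbedding]
  constructor
  · rintro ⟨x, hx, rfl⟩
    exact (hπ x).mp hx
  · intro hy
    exact ⟨π.symm y, by rw [hπ]; simpa using hy, by simp⟩

open Classical in
lemma fiber_eq (m : ℕ) {S T : Finset α} (h : S.card = T.card) :
    (Finset.univ.filter (fun e : Fin (Nat.card α) ≃ α => firstm e m = S)).card
      = (Finset.univ.filter (fun e : Fin (Nat.card α) ≃ α => firstm e m = T)).card := by
  obtain ⟨π, hπ⟩ := exists_perm_map h
  refine Finset.card_bij (fun e _ => e.trans π) ?_ ?_ ?_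
  · intro e he
    simp only [Finset.mem_filter, Finset.mem_univ, true_and] at he ⊢
    rw [firstm_trans, he, hπ]
  · intro e1 _ e2 _ h12
    have : (e1.trans π).trans π.symm = (e2.trans π).trans π.symm := by rw [h12]
    simpa [Equiv.trans_assoc] using this
  · intro e he
    simp only [Finset.mem_filter, Finset.mem_univ, true_and] at he
    refine ⟨e.trans π.symm, ?_, ?_⟩
    · simp only [Finset.mem_filter, Finset.mem_univ, true_and]
      rw [firstm_trans, he, ← hπ]
      ext x; simp
    · simp [Equiv.trans_assoc]

open Classical in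
/-- transfer from the binomial random subset to the uniformly random ordering -/
lemma exists_order {p δ : ℝ} (h0 : 0 ≤ p) (h1 : p ≤ 1) (E : Finset α → Prop)
    (hE : δ ≤ Ex p (fun F => ind (E F))) :
    ∃ m : ℕ, δ * (Fintype.card (Fin (Nat.card α) ≃ α) : ℝ) ≤
      ((Finset.univ.filter (fun e : Fin (Nat.card α) ≃ α => E (firstm e m))).card : ℝ) := by
  have hN : Nat.card α = Fintype.card α := Nat.card_eq_fintype_card
  by_contra hcon
  push Not at hcon
  -- average over m
  have key : ∀ m : ℕ, m ≤ Fintype.card α →
      ((Finset.powersetCard m (Finset.univ : Finset α)).filter E).card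
        * (Fintype.card (Fin (Nat.card α) ≃ α))
      = (Fintype.card α).choose m *
        (Finset.univ.filter (fun e : Fin (Nat.card α) ≃ α => E (firstm e m))).card := by
    intro m hm
    -- fiber size
    obtain ⟨S0, hS0⟩ : ∃ S0 : Finset α, S0.card = m := by
      obtain ⟨S0, _, h⟩ := Finset.exists_subset_card_eq (s := (Finset.univ : Finset α)) (n := m)
        (by rw [Finset.card_univ]; exact hm)
      exact ⟨S0, h⟩
    set κ := (Finset.univ.filter (fun e : Fin (Nat.card α) ≃ α => firstm e m = S0)).card with hκ
    have hcount : ∀ P : Finset α → Prop,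
        (Finset.univ.filter (fun e : Fin (Nat.card α) ≃ α => P (firstm e m))).card
          = ((Finset.powersetCard m (Finset.univ : Finset α)).filter P).card * κ := by
      intro P
      have h3 := Finset.card_eq_sum_card_fiberwise
        (s := Finset.univ.filter (fun e : Fin (Nat.card α) ≃ α => P (firstm e m)))
        (t := (Finset.powersetCard m (Finset.univ : Finset α)).filter P)
        (f := fun e => firstm e m) (by
          intro e he
          simp only [Finset.coe_filter, Finset.mem_univ, true_and, Set.mem_ofPred_eq] at he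
          simp only [Finset.coe_filter, Set.mem_ofPred_eq, Finset.mem_powersetCard,
            Finset.subset_univ, true_and]
          exact ⟨card_firstm e (by rw [hN]; exact hm), he⟩)
      rw [h3]
      rw [Finset.sum_const_nat (m := κ)]
      intro S hS
      simp only [Finset.mem_filter, Finset.mem_powersetCard, Finset.subset_univ, true_and] at hS
      rw [hκ, ← fiber_eq m (hS.1.trans hS0.symm)]
      congr 1
      ext e
      simp only [Finset.mem_filter, Finset.mem_univ, true_and]
      constructor
      · rintro ⟨_, h⟩; exact h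
      · intro h; exact ⟨by rw [h]; exact hS.2, h⟩
    have hall := hcount (fun _ => True)
    simp only [Finset.filter_true, Finset.card_powersetCard, Finset.card_univ] at hall
    rw [hcount E, hall]
    ring
  have hsum : Ex p (fun F => ind (E F)) = ∑ m ∈ Finset.range (Fintype.card α + 1),
      p ^ m * (1 - p) ^ (Fintype.card α - m) *
        (((Finset.powersetCard m (Finset.univ : Finset α)).filter E).card : ℝ) := by
    unfold Ex
    have hp : (Finset.univ : Finset (Finset α)) = (Finset.univ : Finset α).powerset := by simp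
    rw [hp, Finset.sum_powerset, Finset.card_univ]
    refine Finset.sum_congr rfl (fun m _ => ?_)
    have : ∀ F ∈ Finset.powersetCard m (Finset.univ : Finset α),
        wt p F * ind (E F) = p ^ m * (1 - p) ^ (Fintype.card α - m) * (if E F then 1 else 0) := by
      intro F hF
      rw [Finset.mem_powersetCard] at hF
      unfold wt ind
      rw [hF.2]
    rw [Finset.sum_congr rfl this, ← Finset.mul_sum, Finset.sum_boole]
  have hone : (1 : ℝ) = ∑ m ∈ Finset.range (Fintype.card α + 1),
      p ^ m * (1 - p) ^ (Fintype.card α - m) * ((Fintype.card α).choose m : ℝ) := by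
    have := add_pow p (1 - p) (Fintype.card α)
    rw [← this]; simp
  have hT : (0 : ℝ) < (Fintype.card (Fin (Nat.card α) ≃ α) : ℝ) := by
    have : 0 < Fintype.card (Fin (Nat.card α) ≃ α) := by
      rw [Fintype.card_pos_iff]
      exact ⟨(Finite.equivFin α).symm⟩
    exact_mod_cast this
  set T : ℝ := (Fintype.card (Fin (Nat.card α) ≃ α) : ℝ) with hTdef
  have hlt : Ex p (fun F => ind (E F)) * T < δ * T := by
    have e1 : Ex p (fun F => ind (E F)) * T = ∑ m ∈ Finset.range (Fintype.card α + 1),
        p ^ m * (1 - p) ^ (Fintype.card α - m) * ((Fintype.card α).choose m : ℝ) *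
        ((Finset.univ.filter (fun e : Fin (Nat.card α) ≃ α => E (firstm e m))).card : ℝ) := by
      rw [hsum, Finset.sum_mul]
      refine Finset.sum_congr rfl (fun m hm => ?_)
      have hm' : m ≤ Fintype.card α := by
        have := Finset.mem_range.mp hm; omega
      have k := key m hm'
      have k' : (((Finset.powersetCard m (Finset.univ : Finset α)).filter E).card : ℝ) * T
        = ((Fintype.card α).choose m : ℝ) *
        ((Finset.univ.filter (fun e : Fin (Nat.card α) ≃ α => E (firstm e m))).card : ℝ) := by
        rw [hTdef]; exact_mod_cast k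
      rw [mul_assoc, k']; ring
    have e2 : δ * T = ∑ m ∈ Finset.range (Fintype.card α + 1),
        p ^ m * (1 - p) ^ (Fintype.card α - m) * ((Fintype.card α).choose m : ℝ) * (δ * T) := by
      rw [← Finset.sum_mul, ← hone, one_mul]
    rw [e1]
    conv_rhs => rw [e2]
    have hnn : ∀ m ∈ Finset.range (Fintype.card α + 1),
        0 ≤ p ^ m * (1 - p) ^ (Fintype.card α - m) * ((Fintype.card α).choose m : ℝ) := by
      intro m _
      have : 0 ≤ 1 - p := by linarith
      positivity
    refine Finset.sum_lt_sum (fun m hm => mul_le_mul_of_nonneg_left (hcon m).le (hnn m hm)) ?_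
    -- some weight is positive
    obtain ⟨m, hm, hpos⟩ : ∃ m ∈ Finset.range (Fintype.card α + 1),
        0 < p ^ m * (1 - p) ^ (Fintype.card α - m) * ((Fintype.card α).choose m : ℝ) := by
      by_contra hno
      push Not at hno
      have : (1 : ℝ) ≤ 0 := by
        rw [hone]
        exact Finset.sum_nonpos hno
      linarith
    exact ⟨m, hm, mul_lt_mul_of_pos_left (hcon m) hpos⟩
  have := lt_of_mul_lt_mul_right hlt hT.le
  linarith

end order

end Pool.Agent.Helper86
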