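import Mathlib
import Pool.Agent.Helper86.RandSubset

set_option autoImplicit false
set_option linter.unusedSectionVars false

namespace Pool.Agent.Helper86

open Finset Relation

variable {n : ℕ}

/-- literals on `n` variables -/
abbrev Lit (n : ℕ) := Fin n × Bool

/-- two-clauses on `n` variables -/
abbrev Cl (n : ℕ) := {c : Finset (Fin n × Bool) // c.card = 2 ∧ (c.image Prod.fst).card = 2}

/-- negation of a literal -/
def neg (a : Lit n) : Lit n := (a.1, !a.2)

@[simp] lemma neg_inv (a : Lit n) : neg (neg a) = a := by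
  simp [neg]

@[simp] lemma neg_fst (a : Lit n) : (neg a).1 = a.1 := rfl

lemma neg_ne (a : Lit n) : neg a ≠ a := by
  intro h
  have := congrArg Prod.snd h
  simp [neg] at this

lemma neg_inj {a b : Lit n} (h : neg a = neg b) : a = b := by
  have := congrArg neg h
  simpa using this

lemma eq_or_neg {a b : Lit n} (h : a.1 = b.1) : a = b ∨ a = neg b := by
  rcases a with ⟨x, s⟩
  rcases b with ⟨y, t⟩
  simp only at h
  subst h
  cases s <;> cases t <;> simp [neg]

/-- truth of a literal -/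
def Tr (σ : Fin n → Bool) (l : Lit n) : Prop := σ l.1 = l.2

lemma Tr_neg (σ : Fin n → Bool) (l : Lit n) : Tr σ (neg l) ↔ ¬ Tr σ l := by
  unfold Tr neg
  cases h : l.2 <;> cases h' : σ l.1 <;> simp

/-- satisfaction -/
def SatF (σ : Fin n → Bool) (F : Finset (Cl n)) : Prop := ∀ c ∈ F, ∃ l ∈ c.val, σ l.1 = l.2

/-- implication arcs -/
def arc (F : Finset (Cl n)) (a b : Lit n) : Prop := ∃ c ∈ F, c.val = {neg a, b}

lemma cl_exists (c : Cl n) : ∃ l1 l2 : Lit n, l1.1 ≠ l2.1 ∧ c.val = {l1, l2} := by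
  obtain ⟨l1, l2, h12, hc⟩ := Finset.card_eq_two.mp c.2.1
  refine ⟨l1, l2, ?_, hc⟩
  intro h
  have h2 := c.2.2
  rw [hc] at h2
  simp [h] at h2

lemma cl_ne {c : Cl n} {a b : Lit n} (h : c.val = {a, b}) : a.1 ≠ b.1 := by
  intro hab
  have h2 := c.2.2
  rw [h] at h2
  simp [hab] at h2

lemma pair_eq {a b c d : Lit n} (h : ({a, b} : Finset (Lit n)) = {c, d}) :
    (a = c ∧ b = d) ∨ (a = d ∧ b = c) := by
  have ha : a ∈ ({c, d} : Finset (Lit n)) := by rw [← h]; simp
  have hb : b ∈ ({c, d} : Finset (Lit n)) := by rw [← h]; simp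
  have hc : c ∈ ({a, b} : Finset (Lit n)) := by rw [h]; simp
  have hd : d ∈ ({a, b} : Finset (Lit n)) := by rw [h]; simp
  simp only [Finset.mem_insert, Finset.mem_singleton] at ha hb hc hd
  rcases ha with ha | ha <;> rcases hb with hb | hb <;> rcases hc with hc | hc <;>
    rcases hd with hd | hd <;> subst_vars <;> simp_all

lemma arc_fst_ne {F : Finset (Cl n)} {a b : Lit n} (h : arc F a b) : a.1 ≠ b.1 := by
  obtain ⟨c, _, hc⟩ := h
  have := cl_ne hc
  simpa using this

lemma arc_contra {F : Finset (Cl n)} {a b : Lit n} (h : arc F a b) : arc F (neg b) (neg a) := by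
  obtain ⟨c, hcF, hc⟩ := h
  refine ⟨c, hcF, ?_⟩
  rw [hc, neg_inv, Finset.pair_comm]

lemma arc_mono {F G : Finset (Cl n)} (hFG : F ⊆ G) {a b : Lit n} (h : arc F a b) : arc G a b := by
  obtain ⟨c, hcF, hc⟩ := h
  exact ⟨c, hFG hcF, hc⟩

lemma arc_true {F : Finset (Cl n)} {σ : Fin n → Bool} (hσ : SatF σ F) {a b : Lit n}
    (h : arc F a b) (ha : Tr σ a) : Tr σ b := by
  obtain ⟨c, hcF, hc⟩ := h
  obtain ⟨l, hl, hσl⟩ := hσ c hcF
  rw [hc] at hl
  simp only [Finset.mem_insert, Finset.mem_singleton] at hl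
  rcases hl with rfl | rfl
  · exact absurd ha ((Tr_neg σ a).mp hσl)
  · exact hσl

lemma rtg_contra {F : Finset (Cl n)} {a b : Lit n} (h : ReflTransGen (arc F) a b) :
    ReflTransGen (arc F) (neg b) (neg a) := by
  induction h with
  | refl => exact ReflTransGen.refl
  | tail _ h2 ih => exact ReflTransGen.head (arc_contra h2) ih

lemma rtg_mono {F G : Finset (Cl n)} (hFG : F ⊆ G) {a b : Lit n}
    (h : ReflTransGen (arc F) a b) : ReflTransGen (arc G) a b :=
  ReflTransGen.mono (fun _ _ h => arc_mono hFG h) _ _ h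

lemma rtg_true {F : Finset (Cl n)} {σ : Fin n → Bool} (hσ : SatF σ F) {a b : Lit n}
    (h : ReflTransGen (arc F) a b) (ha : Tr σ a) : Tr σ b := by
  induction h with
  | refl => exact ha
  | tail _ h2 ih => exact arc_true hσ h2 ih

/-- arcs between true literals -/
def arcT (F : Finset (Cl n)) (σ : Fin n → Bool) (a b : Lit n) : Prop :=
  arc F a b ∧ Tr σ a ∧ Tr σ b

lemma arcT_mono {F G : Finset (Cl n)} (hFG : F ⊆ G) {σ : Fin n → Bool} {a b : Lit n}
    (h : arcT F σ a b) : arcT G σ a b := ⟨arc_mono hFG h.1, h.2⟩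

lemma rtgT_of_rtg {F : Finset (Cl n)} {σ : Fin n → Bool} (hσ : SatF σ F) {a b : Lit n}
    (ha : Tr σ a) (h : ReflTransGen (arc F) a b) : ReflTransGen (arcT F σ) a b := by
  induction h with
  | refl => exact ReflTransGen.refl
  | tail h1 h2 ih =>
    have hb := rtg_true hσ h1 ha
    exact ih.tail ⟨h2, hb, arc_true hσ h2 hb⟩

lemma rtg_of_rtgT {F : Finset (Cl n)} {σ : Fin n → Bool} {a b : Lit n}
    (h : ReflTransGen (arcT F σ) a b) : ReflTransGen (arc F) a b :=
  ReflTransGen.mono (fun _ _ h => h.1) _ _ h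

/-- `F` contains a nonempty uniquely satisfiable subformula -/
def UA (F : Finset (Cl n)) : Prop :=
  ∃ H : Finset (Cl n), H ⊆ F ∧ H.Nonempty ∧ ∃ a : Fin n → Bool, SatF a H ∧
    ∀ b : Fin n → Bool, SatF b H → ∀ i : Fin n, (∃ c ∈ H, ∃ l ∈ c.val, l.1 = i) → b i = a i

/-- witness for a uniquely satisfiable subformula -/
def UAw (F : Finset (Cl n)) : Prop :=
  ∃ (σ : Fin n → Bool) (u w : Lit n), Tr σ u ∧ Tr σ w ∧ (∃ c ∈ F, c.val = {u, w}) ∧
    ReflTransGen (arcT F σ) u w ∧ ReflTransGen (arcT F σ) w u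

/-- forced literals are reached from their negation -/
lemma forced_path {H : Finset (Cl n)} {a : Fin n → Bool} (ha : SatF a H)
    (hu : ∀ b : Fin n → Bool, SatF b H → ∀ i : Fin n, (∃ c ∈ H, ∃ l ∈ c.val, l.1 = i) → b i = a i)
    {z : Lit n} (hz : Tr a z) (hzH : ∃ c ∈ H, ∃ l ∈ c.val, l.1 = z.1) :
    ReflTransGen (arc H) (neg z) z := by
  classical
  by_cases hcons : ∃ x : Lit n, ReflTransGen (arc H) (neg z) x ∧ ReflTransGen (arc H) (neg z) (neg x)
  · obtain ⟨x, h1, h2⟩ := hcons
    have h3 := rtg_contra h2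
    simp only [neg_inv] at h3
    exact h1.trans h3
  · exfalso
    push Not at hcons
    let b : Fin n → Bool := fun i =>
      if ReflTransGen (arc H) (neg z) (i, true) then true
      else if ReflTransGen (arc H) (neg z) (i, false) then false else a i
    have hbT : ∀ x : Lit n, ReflTransGen (arc H) (neg z) x → b x.1 = x.2 := by
      intro x hx
      rcases x with ⟨i, s⟩
      cases s with
      | true => simp only [b]; rw [if_pos hx]
      | false =>
        have := hcons (i, false) hx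
        simp only [b]
        have h' : ¬ ReflTransGen (arc H) (neg z) (i, true) := by
          intro h; apply this; simpa [neg] using h
        rw [if_neg h', if_pos hx]
    have hbU : ∀ x : Lit n, ¬ ReflTransGen (arc H) (neg z) x → ¬ ReflTransGen (arc H) (neg z) (neg x) →
        b x.1 = a x.1 := by
      intro x h1 h2
      rcases x with ⟨i, s⟩
      cases s with
      | true =>
        have h2' : ¬ ReflTransGen (arc H) (neg z) (i, false) := by simpa [neg] using h2
        simp only [b]; rw [if_neg h1, if_neg h2']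
      | false =>
        have h2' : ¬ ReflTransGen (arc H) (neg z) (i, true) := by simpa [neg] using h2
        simp only [b]; rw [if_neg h2', if_neg h1]
    have hb : SatF b H := by
      intro c hc
      obtain ⟨l1, l2, _, hc12⟩ := cl_exists c
      by_contra hno
      push Not at hno
      have n1 : b l1.1 ≠ l1.2 := hno l1 (by rw [hc12]; simp)
      have n2 : b l2.1 ≠ l2.2 := hno l2 (by rw [hc12]; simp)
      have r1 : ¬ ReflTransGen (arc H) (neg z) l1 := fun h => n1 (hbT l1 h)
      have r2 : ¬ ReflTransGen (arc H) (neg z) l2 := fun h => n2 (hbT l2 h)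
      have s1 : ¬ ReflTransGen (arc H) (neg z) (neg l1) := by
        intro h
        exact r2 (h.tail ⟨c, hc, by rw [neg_inv]; exact hc12⟩)
      have s2 : ¬ ReflTransGen (arc H) (neg z) (neg l2) := by
        intro h
        exact r1 (h.tail ⟨c, hc, by rw [neg_inv, hc12, Finset.pair_comm]⟩)
      obtain ⟨l, hl, hal⟩ := ha c hc
      rw [hc12] at hl
      simp only [Finset.mem_insert, Finset.mem_singleton] at hl
      rcases hl with rfl | rfl
      · exact n1 (by rw [hbU _ r1 s1]; exact hal)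
      · exact n2 (by rw [hbU _ r2 s2]; exact hal)
    have h1 := hu b hb z.1 hzH
    have h2 := hbT (neg z) ReflTransGen.refl
    have h3 : Tr a (neg z) := by
      unfold Tr; rw [neg_fst, ← h1]; exact h2
    exact (Tr_neg a z).mp h3 hz

/-- a path from a false literal to a true one crosses somewhere -/
lemma crossing {α : Type*} {r : α → α → Prop} {P : α → Prop} {x y : α} (h : ReflTransGen r x y)
    (hx : ¬ P x) (hy : P y) :
    ∃ f t, ReflTransGen r x f ∧ ¬ P f ∧ r f t ∧ P t ∧ ReflTransGen r t y := by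
  induction h with
  | refl => exact absurd hy hx
  | @tail b c h1 h2 ih =>
    by_cases hb : P b
    · obtain ⟨f, t, h3, h4, h5, h6, h7⟩ := ih hb
      exact ⟨f, t, h3, h4, h5, h6, h7.tail h2⟩
    · exact ⟨b, c, h1, hb, h2, hy, ReflTransGen.refl⟩

lemma UA_imp_UAw {F : Finset (Cl n)} (h : UA F) : UAw F := by
  classical
  obtain ⟨H, hHF, hHne, a, ha, hu⟩ := h
  -- literals true under a whose variable occurs in H
  let V : Finset (Lit n) := Finset.univ.filter (fun z => Tr a z ∧ ∃ c ∈ H, ∃ l ∈ c.val, l.1 = z.1)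
  have hVne : V.Nonempty := by
    obtain ⟨c, hc⟩ := hHne
    obtain ⟨l, hl, hal⟩ := ha c hc
    exact ⟨l, by simp only [V, Finset.mem_filter, Finset.mem_univ, true_and]; exact ⟨hal, c, hc, l, hl, rfl⟩⟩
  let anc : Lit n → Finset (Lit n) := fun z =>
    Finset.univ.filter (fun y => ReflTransGen (arc H) y z ∧ Tr a y)
  obtain ⟨z, hzV, hzmin⟩ := Finset.exists_min_image V (fun z => (anc z).card) hVne
  have hzV' := hzV
  simp only [V, Finset.mem_filter, Finset.mem_univ, true_and] at hzV
  have hback : ∀ y ∈ V, ReflTransGen (arc H) y z → ReflTransGen (arc H) z y := by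
    intro y hy hyz
    have hsub : anc y ⊆ anc z := by
      intro x hx
      simp only [anc, Finset.mem_filter, Finset.mem_univ, true_and] at hx ⊢
      exact ⟨hx.1.trans hyz, hx.2⟩
    have heq : anc y = anc z := Finset.eq_of_subset_of_card_le hsub (hzmin y hy)
    have : z ∈ anc y := by
      rw [heq]
      simp only [anc, Finset.mem_filter, Finset.mem_univ, true_and]
      exact ⟨ReflTransGen.refl, hzV.1⟩
    simp only [anc, Finset.mem_filter, Finset.mem_univ, true_and] at this
    exact this.1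
  have hp := forced_path ha hu hzV.1 hzV.2
  have hnz : ¬ Tr a (neg z) := fun h => (Tr_neg a z).mp h hzV.1
  obtain ⟨f, t, h1, h2, h3, h4, h5⟩ := crossing (P := Tr a) hp hnz hzV.1
  have hnf : Tr a (neg f) := (Tr_neg a f).mpr h2
  have h1' := rtg_contra h1
  rw [neg_inv] at h1'
  obtain ⟨c, hcH, hc⟩ := h3
  have hfV : neg f ∈ V := by
    simp only [V, Finset.mem_filter, Finset.mem_univ, true_and]
    exact ⟨hnf, c, hcH, neg f, by rw [hc]; simp, rfl⟩
  have htV : t ∈ V := by
    simp only [V, Finset.mem_filter, Finset.mem_univ, true_and]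
    exact ⟨h4, c, hcH, t, by rw [hc]; simp, rfl⟩
  have hzf := hback _ hfV h1'
  have hzt := hback _ htV h5
  refine ⟨a, neg f, t, hnf, h4, ⟨c, hHF hcH, hc⟩, ?_, ?_⟩
  · exact ReflTransGen.mono (fun _ _ h => arcT_mono hHF h) _ _ (rtgT_of_rtg ha hnf (h1'.trans hzt))
  · exact ReflTransGen.mono (fun _ _ h => arcT_mono hHF h) _ _ (rtgT_of_rtg ha h4 (h5.trans hzf))

/-- literals whose variable occurs in `S` -/
def lits (S : Finset (Cl n)) (y : Lit n) : Prop := ∃ c ∈ S, ∃ l ∈ c.val, l.1 = y.1

lemma lits_of_arc_left {S : Finset (Cl n)} {a b : Lit n} (h : arc S a b) : lits S a := by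
  obtain ⟨c, hc, hcv⟩ := h
  exact ⟨c, hc, neg a, by rw [hcv]; simp, rfl⟩

lemma lits_of_arc_right {S : Finset (Cl n)} {a b : Lit n} (h : arc S a b) : lits S b := by
  obtain ⟨c, hc, hcv⟩ := h
  exact ⟨c, hc, b, by rw [hcv]; simp, rfl⟩

lemma arc_split {F : Finset (Cl n)} (S : Finset (Cl n)) {a b : Lit n} (h : arc F a b) :
    arc S a b ∨ arc (F \ S) a b := by
  obtain ⟨c, hc, hcv⟩ := h
  by_cases hS : c ∈ S
  · exact Or.inl ⟨c, hS, hcv⟩
  · exact Or.inr ⟨c, Finset.mem_sdiff.mpr ⟨hc, hS⟩, hcv⟩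

/-- no implication path of `X` joins two literals over the variables of `S` -/
def NoPath (S X : Finset (Cl n)) : Prop :=
  ∀ a b : Lit n, lits S a → lits S b → ¬ TransGen (arc X) a b

lemma star {F S : Finset (Cl n)} (hG : NoPath S (F \ S)) {y z : Lit n} (hy : lits S y)
    (hyz : arc (F \ S) y z) (hzy : ReflTransGen (arc F) z y) : False := by
  have key : ∀ z : Lit n, ReflTransGen (arc F) z y →
      ∃ w', lits S w' ∧ ReflTransGen (arc (F \ S)) z w' := by
    intro z hz
    induction hz using ReflTransGen.head_induction_on with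
    | refl => exact ⟨y, hy, ReflTransGen.refl⟩
    | @head a c h1 _ ih =>
      rcases arc_split S h1 with h | h
      · exact ⟨a, lits_of_arc_left h, ReflTransGen.refl⟩
      · obtain ⟨w', hw', hp⟩ := ih
        exact ⟨w', hw', ReflTransGen.head h hp⟩
  obtain ⟨w', hw', hp⟩ := key z hzy
  exact hG y w' hy hw' (TransGen.head' hyz hp)

/-- arcs on closed walks through the variables of `S` come from `S` -/
lemma closed_arc {F S : Finset (Cl n)} (hG : NoPath S (F \ S)) {y z : Lit n} (hy : lits S y)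
    {c : Cl n} (hcF : c ∈ F) (hc : c.val = {neg y, z}) (hzy : ReflTransGen (arc F) z y) :
    c ∈ S := by
  by_contra hcS
  exact star hG hy ⟨c, Finset.mem_sdiff.mpr ⟨hcF, hcS⟩, hc⟩ hzy

lemma closed_walk {F S : Finset (Cl n)} (hG : NoPath S (F \ S)) {y z : Lit n} (hy : lits S y)
    (hyz : ReflTransGen (arc F) y z) (hzy : ReflTransGen (arc F) z y) : lits S z := by
  induction hyz with
  | refl => exact hy
  | @tail b c h1 h2 ih =>
    have hb := ih ((ReflTransGen.single h2).trans hzy)
    obtain ⟨cc, hcF, hc⟩ := h2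
    have hS := closed_arc hG hb hcF hc (hzy.trans h1)
    exact lits_of_arc_right ⟨cc, hS, hc⟩

lemma closed_walkT {F S : Finset (Cl n)} {σ : Fin n → Bool} (hG : NoPath S (F \ S)) {y z : Lit n}
    (hy : lits S y)
    (hyz : ReflTransGen (arcT F σ) y z) (hzy : ReflTransGen (arcT F σ) z y) :
    ReflTransGen (arcT S σ) y z := by
  induction hyz with
  | refl => exact ReflTransGen.refl
  | @tail b c h1 h2 ih =>
    have hcb : ReflTransGen (arcT F σ) b y := (ReflTransGen.single h2).trans hzy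
    have ih' := ih hcb
    have hb : lits S b := closed_walk hG hy (rtg_of_rtgT h1) (rtg_of_rtgT hcb)
    obtain ⟨⟨cc, hcF, hc⟩, t1, t2⟩ := h2
    have hS := closed_arc hG hb hcF hc (rtg_of_rtgT (hzy.trans h1))
    exact ih'.tail ⟨⟨cc, hS, hc⟩, t1, t2⟩

lemma outside_walkT {F S : Finset (Cl n)} {σ : Fin n → Bool} (hG : NoPath S (F \ S)) {y z : Lit n}
    (hy : ¬ lits S y)
    (hyz : ReflTransGen (arcT F σ) y z) (hzy : ReflTransGen (arcT F σ) z y) :
    ReflTransGen (arcT (F \ S) σ) y z := by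
  induction hyz with
  | refl => exact ReflTransGen.refl
  | @tail b c h1 h2 ih =>
    have hcb : ReflTransGen (arcT F σ) b y := (ReflTransGen.single h2).trans hzy
    have ih' := ih hcb
    have hb : ¬ lits S b := fun hb => hy (closed_walk hG hb (rtg_of_rtgT hcb) (rtg_of_rtgT h1))
    obtain ⟨h2', t1, t2⟩ := h2
    rcases arc_split S h2' with h | h
    · exact absurd (lits_of_arc_left h) hb
    · exact ih'.tail ⟨h, t1, t2⟩

/-- if `S` has no consistent closed walk then a witness in `F` lives in `F \ S` -/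
lemma UAw_sdiff {F S : Finset (Cl n)} (hG : NoPath S (F \ S))
    (hS : ∀ (σ : Fin n → Bool) (y : Lit n), ¬ TransGen (arcT S σ) y y) (h : UAw F) :
    UAw (F \ S) := by
  obtain ⟨σ, u, w, hu, hw, ⟨c, hcF, hc⟩, h1, h2⟩ := h
  by_cases hlu : lits S u
  · exfalso
    have hlw : lits S w := closed_walk hG hlu (rtg_of_rtgT h1) (rtg_of_rtgT h2)
    have a1 := closed_walkT hG hlu h1 h2
    have a2 := closed_walkT hG hlw h2 h1
    have hne : u ≠ w := fun h => cl_ne hc (by rw [h])
    rcases (reflTransGen_iff_eq_or_transGen).mp a1 with h | h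
    · exact hne h.symm
    · exact hS σ u (h.trans_left a2)
  · have hlw : ¬ lits S w := fun hw' => hlu (closed_walk hG hw' (rtg_of_rtgT h2) (rtg_of_rtgT h1))
    refine ⟨σ, u, w, hu, hw, ⟨c, ?_, hc⟩, outside_walkT hG hlu h1 h2, outside_walkT hG hlw h2 h1⟩
    refine Finset.mem_sdiff.mpr ⟨hcF, fun hcS => hlu ⟨c, hcS, u, ?_, rfl⟩⟩
    rw [hc]; simp

end Pool.Agent.Helper86
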