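import Mathlib
import Pool.Agent.Helper86.TwoSat

set_option autoImplicit false
set_option linter.unusedSectionVars false

namespace Pool.Agent.Helper86

open Finset Relation

variable {n : ℕ}

/-- clause from two literals on distinct variables -/
def mkCl (a b : Lit n) (h : a.1 ≠ b.1) : Cl n :=
  ⟨{a, b}, by
    constructor
    · exact Finset.card_pair (fun hab => h (by rw [hab]))
    · rw [Finset.image_insert, Finset.image_singleton]
      exact Finset.card_pair h⟩

@[simp] lemma mkCl_val (a b : Lit n) (h : a.1 ≠ b.1) : (mkCl a b h).val = {a, b} := rfl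

/-- the snake formula: a path of implications folded back at both ends -/
def snake (v i j : ℕ) (x : ℕ → Lit n) : Finset (Cl n) :=
  Finset.univ.filter (fun c => (∃ t < v - 1, c.val = {neg (x t), x (t + 1)}) ∨
    c.val = {x 0, x i} ∨ c.val = {neg (x (v - 1)), neg (x j)})

/-- validity of the code of a snake -/
structure Valid (v i j : ℕ) (x : ℕ → Lit n) : Prop where
  inj : ∀ s t, s < v → t < v → (x s).1 = (x t).1 → s = t
  hi : 1 ≤ i
  hij : i < j
  hjv : j + 2 ≤ v

lemma mem_snake {v i j : ℕ} {x : ℕ → Lit n} {c : Cl n} :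
    c ∈ snake v i j x ↔ (∃ t < v - 1, c.val = {neg (x t), x (t + 1)}) ∨
    c.val = {x 0, x i} ∨ c.val = {neg (x (v - 1)), neg (x j)} := by
  unfold snake
  rw [Finset.mem_filter]
  simp only [Finset.mem_univ, true_and]

section valid

variable {v i j : ℕ} {x : ℕ → Lit n}

lemma Valid.ne_neg (h : Valid v i j x) {s t : ℕ} (hs : s < v) (ht : t < v) : x s ≠ neg (x t) := by
  intro e
  have : s = t := h.inj s t hs ht (by rw [e]; rfl)
  subst this
  exact neg_ne (x s) e.symm

lemma Valid.eq_iff (h : Valid v i j x) {s t : ℕ} (hs : s < v) (ht : t < v) :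
    x s = x t ↔ s = t := ⟨fun e => h.inj s t hs ht (by rw [e]), fun e => by rw [e]⟩

lemma Valid.arc_path (h : Valid v i j x) {t : ℕ} (ht : t + 1 < v) :
    arc (snake v i j x) (x t) (x (t + 1)) := by
  have hne : (neg (x t)).1 ≠ (x (t + 1)).1 := by
    intro e
    have := h.inj t (t + 1) (by omega) ht e
    omega
  exact ⟨mkCl (neg (x t)) (x (t + 1)) hne, mem_snake.mpr (Or.inl ⟨t, by omega, rfl⟩), rfl⟩

lemma Valid.arc_left (h : Valid v i j x) :
    arc (snake v i j x) (neg (x i)) (x 0) := by
  have hne : (x 0).1 ≠ (x i).1 := by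
    intro e
    have := h.inj 0 i (by have := h.hij; have := h.hjv; omega) (by have := h.hij; have := h.hjv; omega) e
    have := h.hi
    omega
  refine ⟨mkCl (x 0) (x i) hne, mem_snake.mpr (Or.inr (Or.inl rfl)), ?_⟩
  rw [mkCl_val, neg_inv, Finset.pair_comm]

lemma Valid.arc_right (h : Valid v i j x) :
    arc (snake v i j x) (x (v - 1)) (neg (x j)) := by
  have hne : (neg (x (v - 1))).1 ≠ (neg (x j)).1 := by
    intro e
    have := h.inj (v - 1) j (by have := h.hjv; omega) (by have := h.hjv; omega) e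
    have := h.hjv
    omega
  exact ⟨mkCl (neg (x (v - 1))) (neg (x j)) hne, mem_snake.mpr (Or.inr (Or.inr rfl)), rfl⟩

lemma arc_snake_cases {y y' : Lit n} (h : arc (snake v i j x) y y') :
    (∃ t < v - 1, (y = x t ∧ y' = x (t + 1)) ∨ (y = neg (x (t + 1)) ∧ y' = neg (x t))) ∨
    (y = neg (x 0) ∧ y' = x i) ∨ (y = neg (x i) ∧ y' = x 0) ∨
    (y = x (v - 1) ∧ y' = neg (x j)) ∨ (y = x j ∧ y' = neg (x (v - 1))) := by
  obtain ⟨c, hc, hcv⟩ := h
  have key : ∀ a b : Lit n, c.val = {a, b} → (y = neg a ∧ y' = b) ∨ (y = neg b ∧ y' = a) := by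
    intro a b hab
    rw [hcv] at hab
    rcases pair_eq hab with ⟨h1, h2⟩ | ⟨h1, h2⟩
    · left; exact ⟨by rw [← h1, neg_inv], h2⟩
    · right; exact ⟨by rw [← h1, neg_inv], h2⟩
  rcases mem_snake.mp hc with ⟨t, ht, h1⟩ | h1 | h1
  · left
    refine ⟨t, ht, ?_⟩
    rcases key _ _ h1 with ⟨h2, h3⟩ | ⟨h2, h3⟩
    · left; exact ⟨by rw [h2, neg_inv], h3⟩
    · right; exact ⟨h2, h3⟩
  · right
    rcases key _ _ h1 with ⟨h2, h3⟩ | ⟨h2, h3⟩
    · left; exact ⟨h2, h3⟩
    · right; left; exact ⟨h2, h3⟩
  · right; right; right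
    rcases key _ _ h1 with ⟨h2, h3⟩ | ⟨h2, h3⟩
    · left; exact ⟨by rw [h2, neg_inv], h3⟩
    · right; exact ⟨by rw [h2, neg_inv], h3⟩

/-- successor of `x t` -/
lemma Valid.out_pos (h : Valid v i j x) {t : ℕ} (ht : t + 1 < v) (htj : t ≠ j) {y : Lit n}
    (ha : arc (snake v i j x) (x t) y) : y = x (t + 1) := by
  have h1 := h.hi; have h2 := h.hij; have h3 := h.hjv
  rcases arc_snake_cases ha with ⟨s, hs, ⟨e1, e2⟩ | ⟨e1, _⟩⟩ | ⟨e1, _⟩ | ⟨e1, _⟩ | ⟨e1, _⟩ | ⟨e1, _⟩
  · have := (h.eq_iff (by omega) (by omega)).mp e1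
    rw [e2, this]
  · exact absurd e1 (h.ne_neg (by omega) (by omega))
  · exact absurd e1 (h.ne_neg (by omega) (by omega))
  · exact absurd e1 (h.ne_neg (by omega) (by omega))
  · have := (h.eq_iff (by omega) (by omega)).mp e1
    omega
  · have := (h.eq_iff (by omega) (by omega)).mp e1
    omega

lemma Valid.out_j (h : Valid v i j x) {y : Lit n}
    (ha : arc (snake v i j x) (x j) y) : y = x (j + 1) ∨ y = neg (x (v - 1)) := by
  have h1 := h.hi; have h2 := h.hij; have h3 := h.hjv
  rcases arc_snake_cases ha with ⟨s, hs, ⟨e1, e2⟩ | ⟨e1, _⟩⟩ | ⟨e1, _⟩ | ⟨e1, _⟩ | ⟨e1, _⟩ | ⟨_, e2⟩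
  · have := (h.eq_iff (by omega) (by omega)).mp e1
    left; rw [e2, this]
  · exact absurd e1 (h.ne_neg (by omega) (by omega))
  · exact absurd e1 (h.ne_neg (by omega) (by omega))
  · exact absurd e1 (h.ne_neg (by omega) (by omega))
  · have := (h.eq_iff (by omega) (by omega)).mp e1
    omega
  · right; exact e2

lemma Valid.out_last (h : Valid v i j x) {y : Lit n}
    (ha : arc (snake v i j x) (x (v - 1)) y) : y = neg (x j) := by
  have h1 := h.hi; have h2 := h.hij; have h3 := h.hjv
  rcases arc_snake_cases ha with ⟨s, hs, ⟨e1, e2⟩ | ⟨e1, _⟩⟩ | ⟨e1, _⟩ | ⟨e1, _⟩ | ⟨_, e2⟩ | ⟨e1, _⟩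
  · have := (h.eq_iff (by omega) (by omega)).mp e1
    omega
  · exact absurd e1 (h.ne_neg (by omega) (by omega))
  · exact absurd e1 (h.ne_neg (by omega) (by omega))
  · exact absurd e1 (h.ne_neg (by omega) (by omega))
  · exact e2
  · have := (h.eq_iff (by omega) (by omega)).mp e1
    omega

lemma Valid.out_neg (h : Valid v i j x) {t : ℕ} (ht : t + 1 < v) (hti : t + 1 ≠ i) {y : Lit n}
    (ha : arc (snake v i j x) (neg (x (t + 1))) y) : y = neg (x t) := by
  have h1 := h.hi; have h2 := h.hij; have h3 := h.hjv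
  rcases arc_snake_cases ha with ⟨s, hs, ⟨e1, e2⟩ | ⟨e1, e2⟩⟩ | ⟨e1, _⟩ | ⟨e1, _⟩ | ⟨e1, _⟩ | ⟨e1, _⟩
  · exact absurd e1.symm (h.ne_neg (by omega) (by omega))
  · have := (h.eq_iff (by omega) (by omega)).mp (neg_inj e1)
    have : t = s := by omega
    rw [e2, this]
  · have := (h.eq_iff (by omega) (by omega)).mp (neg_inj e1)
    omega
  · have := (h.eq_iff (by omega) (by omega)).mp (neg_inj e1)
    omega
  · exact absurd e1.symm (h.ne_neg (by omega) (by omega))
  · exact absurd e1.symm (h.ne_neg (by omega) (by omega))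

lemma Valid.out_neg_i (h : Valid v i j x) {y : Lit n}
    (ha : arc (snake v i j x) (neg (x i)) y) : y = neg (x (i - 1)) ∨ y = x 0 := by
  have h1 := h.hi; have h2 := h.hij; have h3 := h.hjv
  rcases arc_snake_cases ha with ⟨s, hs, ⟨e1, e2⟩ | ⟨e1, e2⟩⟩ | ⟨e1, _⟩ | ⟨_, e2⟩ | ⟨e1, _⟩ | ⟨e1, _⟩
  · exact absurd e1.symm (h.ne_neg (by omega) (by omega))
  · have := (h.eq_iff (by omega) (by omega)).mp (neg_inj e1)
    left
    have : i - 1 = s := by omega
    rw [e2, this]
  · have := (h.eq_iff (by omega) (by omega)).mp (neg_inj e1)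
    omega
  · right; exact e2
  · exact absurd e1.symm (h.ne_neg (by omega) (by omega))
  · exact absurd e1.symm (h.ne_neg (by omega) (by omega))

lemma Valid.out_neg_0 (h : Valid v i j x) {y : Lit n}
    (ha : arc (snake v i j x) (neg (x 0)) y) : y = x i := by
  have h1 := h.hi; have h2 := h.hij; have h3 := h.hjv
  rcases arc_snake_cases ha with ⟨s, hs, ⟨e1, e2⟩ | ⟨e1, e2⟩⟩ | ⟨_, e2⟩ | ⟨e1, e2⟩ | ⟨e1, _⟩ | ⟨e1, _⟩
  · exact absurd e1.symm (h.ne_neg (by omega) (by omega))
  · have := (h.eq_iff (by omega) (by omega)).mp (neg_inj e1)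
    omega
  · exact e2
  · have := (h.eq_iff (by omega) (by omega)).mp (neg_inj e1)
    omega
  · exact absurd e1.symm (h.ne_neg (by omega) (by omega))
  · exact absurd e1.symm (h.ne_neg (by omega) (by omega))

lemma Valid.rtg_path (h : Valid v i j x) {s t : ℕ} (hst : s ≤ t) (ht : t < v) :
    ReflTransGen (arc (snake v i j x)) (x s) (x t) := by
  induction t, hst using Nat.le_induction with
  | base => exact ReflTransGen.refl
  | succ t hst ih => exact (ih (by omega)).tail (h.arc_path ht)

lemma Valid.not_sat (h : Valid v i j x) (σ : Fin n → Bool) : ¬ SatF σ (snake v i j x) := by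
  intro hσ
  have h1 := h.hi; have h2 := h.hij; have h3 := h.hjv
  by_cases hti : Tr σ (x i)
  · have a1 : Tr σ (x j) := rtg_true hσ (h.rtg_path h2.le (by omega)) hti
    have a2 : Tr σ (x (v - 1)) := rtg_true hσ (h.rtg_path (by omega) (by omega)) a1
    have a3 := arc_true hσ h.arc_right a2
    exact (Tr_neg σ (x j)).mp a3 a1
  · have a0 := (Tr_neg σ (x i)).mpr hti
    have a1 := arc_true hσ h.arc_left a0
    exact hti (rtg_true hσ (h.rtg_path (Nat.zero_le i) (by omega)) a1)

/-- no consistent set of literals closed under having a successor -/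
lemma Valid.no_Q (h : Valid v i j x) (σ : Fin n → Bool) (Q : Lit n → Prop)
    (hT : ∀ z, Q z → Tr σ z) (hs : ∀ z, Q z → ∃ z', arc (snake v i j x) z z' ∧ Q z') :
    ∀ z, ¬ Q z := by
  have h1 := h.hi; have h2 := h.hij; have h3 := h.hjv
  -- from x t with t > j we reach neg (x j)
  have f1 : ∀ d t : ℕ, t + d = v - 1 → j < t → Q (x t) → Q (neg (x j)) := by
    intro d
    induction d with
    | zero =>
      intro t ht hjt hQ
      obtain ⟨z', ha, hQ'⟩ := hs _ hQ
      have : t = v - 1 := by omega
      subst this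
      rw [h.out_last ha] at hQ'
      exact hQ'
    | succ d ih =>
      intro t ht hjt hQ
      obtain ⟨z', ha, hQ'⟩ := hs _ hQ
      rw [h.out_pos (by omega) (by omega) ha] at hQ'
      exact ih (t + 1) (by omega) (by omega) hQ'
  have f2 : ∀ t : ℕ, j ≤ t → t < v → Q (neg (x t)) → Q (neg (x j)) := by
    intro t hjt
    induction t, hjt using Nat.le_induction with
    | base => intro _ hQ; exact hQ
    | succ t hjt ih =>
      intro htv hQ
      obtain ⟨z', ha, hQ'⟩ := hs _ hQ
      rw [h.out_neg htv (by omega) ha] at hQ'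
      exact ih (by omega) hQ'
  have g1 : ¬ Q (x j) := by
    intro hQ
    have hTj := hT _ hQ
    obtain ⟨z', ha, hQ'⟩ := hs _ hQ
    have : Q (neg (x j)) := by
      rcases h.out_j ha with e | e
      · rw [e] at hQ'
        exact f1 (v - 1 - (j + 1)) (j + 1) (by omega) (by omega) hQ'
      · rw [e] at hQ'
        exact f2 (v - 1) (by omega) (by omega) hQ'
    exact (Tr_neg σ (x j)).mp (hT _ this) hTj
  have g2 : ∀ d t : ℕ, t + d = j → ¬ Q (x t) := by
    intro d
    induction d with
    | zero => intro t ht; have : t = j := by omega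
              subst this; exact g1
    | succ d ih =>
      intro t ht hQ
      obtain ⟨z', ha, hQ'⟩ := hs _ hQ
      rw [h.out_pos (by omega) (by omega) ha] at hQ'
      exact ih (t + 1) (by omega) hQ'
  have g3 : ∀ t, t < i → ¬ Q (neg (x t)) := by
    intro t
    induction t with
    | zero =>
      intro _ hQ
      obtain ⟨z', ha, hQ'⟩ := hs _ hQ
      rw [h.out_neg_0 ha] at hQ'
      exact g2 (j - i) i (by omega) hQ'
    | succ t ih =>
      intro hti hQ
      obtain ⟨z', ha, hQ'⟩ := hs _ hQ
      rw [h.out_neg (by omega) (by omega) ha] at hQ'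
      exact ih (by omega) hQ'
  have g4 : ¬ Q (neg (x i)) := by
    intro hQ
    obtain ⟨z', ha, hQ'⟩ := hs _ hQ
    rcases h.out_neg_i ha with e | e
    · rw [e] at hQ'
      exact g3 (i - 1) (by omega) hQ'
    · rw [e] at hQ'
      exact g2 j 0 (by omega) hQ'
  have g5 : ∀ t, i ≤ t → t < v → ¬ Q (neg (x t)) := by
    intro t hit
    induction t, hit using Nat.le_induction with
    | base => intro _; exact g4
    | succ t hit ih =>
      intro htv hQ
      obtain ⟨z', ha, hQ'⟩ := hs _ hQ
      rw [h.out_neg htv (by omega) ha] at hQ'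
      exact ih (by omega) hQ'
  have g6 : ∀ t, t < v → ¬ Q (neg (x t)) := by
    intro t ht
    by_cases hti : t < i
    · exact g3 t hti
    · exact g5 t (by omega) ht
  have g7 : ∀ t, t < v → ¬ Q (x t) := by
    intro t ht hQ
    by_cases htj : t ≤ j
    · exact g2 (j - t) t (by omega) hQ
    · exact g6 j (by omega) (f1 (v - 1 - t) t (by omega) (by omega) hQ)
  intro z hQ
  obtain ⟨z', ha, _⟩ := hs _ hQ
  rcases arc_snake_cases ha with ⟨s, hs, ⟨e1, _⟩ | ⟨e1, _⟩⟩ | ⟨e1, _⟩ | ⟨e1, _⟩ | ⟨e1, _⟩ | ⟨e1, _⟩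
  · exact g7 s (by omega) (e1 ▸ hQ)
  · exact g6 (s + 1) (by omega) (e1 ▸ hQ)
  · exact g6 0 (by omega) (e1 ▸ hQ)
  · exact g6 i (by omega) (e1 ▸ hQ)
  · exact g7 (v - 1) (by omega) (e1 ▸ hQ)
  · exact g7 j (by omega) (e1 ▸ hQ)

lemma Valid.no_closed (h : Valid v i j x) (σ : Fin n → Bool) (y : Lit n) :
    ¬ TransGen (arcT (snake v i j x) σ) y y := by
  intro hy
  refine h.no_Q σ (fun z => ReflTransGen (arcT (snake v i j x) σ) y z ∧
    TransGen (arcT (snake v i j x) σ) z y) ?_ ?_ y ⟨ReflTransGen.refl, hy⟩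
  · rintro z ⟨_, hz⟩
    obtain ⟨z', hz', _⟩ := TransGen.head'_iff.mp hz
    exact hz'.2.1
  · rintro z ⟨h1, hz⟩
    obtain ⟨z', hz', hz''⟩ := TransGen.head'_iff.mp hz
    refine ⟨z', hz'.1, h1.tail hz', ?_⟩
    exact TransGen.trans_right hz'' hy

lemma Valid.rtg_neg_path (h : Valid v i j x) {s t : ℕ} (hst : s ≤ t) (ht : t < v) :
    ReflTransGen (arc (snake v i j x)) (neg (x t)) (neg (x s)) :=
  rtg_contra (h.rtg_path hst ht)

/-- a snake inside `F` is inside `S` -/
lemma Valid.subset_of {F S : Finset (Cl n)} (h : Valid v i j x) (hG : NoPath S (F \ S))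
    (hsat : ∃ σ, SatF σ (F \ S)) (hF : snake v i j x ⊆ F) : snake v i j x ⊆ S := by
  have h1 := h.hi; have h2 := h.hij; have h3 := h.hjv
  have m : ∀ {a b : Lit n}, ReflTransGen (arc (snake v i j x)) a b → ReflTransGen (arc F) a b :=
    fun hab => rtg_mono hF hab
  -- hub
  have p1 : ∀ t, t < v → ReflTransGen (arc (snake v i j x)) (x 0) (x t) :=
    fun t ht => h.rtg_path (Nat.zero_le t) ht
  have p2 : ReflTransGen (arc (snake v i j x)) (x 0) (neg (x j)) := (p1 (v - 1) (by omega)).tail h.arc_right
  have p3 : ReflTransGen (arc (snake v i j x)) (x 0) (neg (x i)) :=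
    p2.trans (h.rtg_neg_path h2.le (by omega))
  have p4 : ReflTransGen (arc (snake v i j x)) (neg (x i)) (x 0) := ReflTransGen.single h.arc_left
  have p5 : ReflTransGen (arc (snake v i j x)) (neg (x j)) (x 0) :=
    (h.rtg_neg_path h2.le (by omega)).trans p4
  have p6 : ∀ t, t < v → ReflTransGen (arc (snake v i j x)) (x t) (x 0) :=
    fun t ht => ((h.rtg_path (show t ≤ v - 1 by omega) (by omega)).tail h.arc_right).trans p5
  by_cases hl : lits S (x 0)
  · have q : ∀ t, t < v → lits S (x t) := fun t ht => closed_walk hG hl (m (p1 t ht)) (m (p6 t ht))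
    intro c hc
    have hcF := hF hc
    rcases mem_snake.mp hc with ⟨t, ht, e⟩ | e | e
    · exact closed_arc hG (q t (by omega)) hcF e (m ((p6 (t + 1) (by omega)).trans (p1 t (by omega))))
    · have e' : c.val = {neg (neg (x i)), x 0} := by rw [e, neg_inv, Finset.pair_comm]
      have hq : lits S (neg (x i)) := q i (by omega)
      exact closed_arc hG hq hcF e' (m p3)
    · exact closed_arc hG (q (v - 1) (by omega)) hcF e (m (p5.trans (p1 (v - 1) (by omega))))
  · exfalso
    have q : ∀ t, t < v → ¬ lits S (x t) := fun t ht hlt =>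
      hl (closed_walk hG hlt (m (p6 t ht)) (m (p1 t ht)))
    obtain ⟨σ, hσ⟩ := hsat
    refine h.not_sat σ (fun c hc => hσ c ?_)
    refine Finset.mem_sdiff.mpr ⟨hF hc, fun hcS => ?_⟩
    rcases mem_snake.mp hc with ⟨t, ht, e⟩ | e | e
    · exact q t (by omega) ⟨c, hcS, neg (x t), by rw [e]; simp, rfl⟩
    · exact q 0 (by omega) ⟨c, hcS, x 0, by rw [e]; simp, rfl⟩
    · exact q j (by omega) ⟨c, hcS, neg (x j), by rw [e]; simp, rfl⟩

end valid

/-- injective key of literals -/
def key (a : Lit n) : ℕ := 2 * (a.1 : ℕ) + (if a.2 then 1 else 0)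

lemma key_inj {a b : Lit n} (h : key a = key b) : a = b := by
  rcases a with ⟨x, s⟩
  rcases b with ⟨y, t⟩
  unfold key at h
  simp only at h
  have hx : (x : ℕ) = (y : ℕ) := by
    cases s <;> cases t <;> simp at h <;> omega
  have hxy : x = y := Fin.ext hx
  subst hxy
  cases s <;> cases t <;> simp at h ⊢

/-- symmetry breaking bits of a snake code -/
def bits (v i j : ℕ) (x : ℕ → Lit n) : Bool × Bool × Bool :=
  (decide (key (x j) < key (neg (x i))), decide (key (x 0) < key (neg (x (i - 1)))),
    decide (key (x (j + 1)) < key (neg (x (v - 1)))))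

/-- a two element set is determined by its elements and the order bit -/
lemma pair_bit {a b a' b' : Lit n} (hab : a ≠ b)
    (h : ∀ y : Lit n, (y = a ∨ y = b) ↔ (y = a' ∨ y = b'))
    (hbit : decide (key a < key b) = decide (key a' < key b')) : a = a' ∧ b = b' := by
  have h1 := (h a).mp (Or.inl rfl)
  have h2 := (h b).mp (Or.inr rfl)
  have hbit' : key a < key b ↔ key a' < key b' := by
    simpa using hbit
  rcases h1 with h1 | h1
  · rcases h2 with h2 | h2
    · exact absurd (h1.trans h2.symm) hab
    · exact ⟨h1, h2⟩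
  · rcases h2 with h2 | h2
    · exfalso
      subst h1
      subst h2
      have hk : key a ≠ key b := fun e => hab (key_inj e)
      omega
    · exact absurd (h1.trans h2.symm) hab

section inj

variable {v i j v' i' j' : ℕ} {x x' : ℕ → Lit n}

/-- branching literals -/
lemma Valid.branch (h : Valid v i j x) (y : Lit n) :
    (∃ a b, a ≠ b ∧ arc (snake v i j x) y a ∧ arc (snake v i j x) y b) ↔
      (y = x j ∨ y = neg (x i)) := by
  have h1 := h.hi; have h2 := h.hij; have h3 := h.hjv
  constructor
  · rintro ⟨a, b, hab, ha, hb⟩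
    by_contra hno
    push Not at hno
    obtain ⟨n1, n2⟩ := hno
    rcases arc_snake_cases ha with ⟨s, hs, ⟨e1, _⟩ | ⟨e1, _⟩⟩ | ⟨e1, _⟩ | ⟨e1, _⟩ | ⟨e1, _⟩ | ⟨e1, _⟩
    · subst e1
      have hsj : s ≠ j := fun e => n1 (by rw [e])
      exact hab ((h.out_pos (by omega) hsj ha).trans (h.out_pos (by omega) hsj hb).symm)
    · subst e1
      have hsi : s + 1 ≠ i := fun e => n2 (by rw [e])
      exact hab ((h.out_neg (by omega) hsi ha).trans (h.out_neg (by omega) hsi hb).symm)
    · subst e1
      exact hab ((h.out_neg_0 ha).trans (h.out_neg_0 hb).symm)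
    · exact n2 e1
    · subst e1
      exact hab ((h.out_last ha).trans (h.out_last hb).symm)
    · exact n1 e1
  · rintro (rfl | rfl)
    · refine ⟨x (j + 1), neg (x (v - 1)), h.ne_neg (by omega) (by omega), h.arc_path (by omega), ?_⟩
      have := arc_contra h.arc_right
      rwa [neg_inv] at this
    · refine ⟨x 0, neg (x (i - 1)), h.ne_neg (by omega) (by omega), h.arc_left, ?_⟩
      have := arc_contra (h.arc_path (t := i - 1) (by omega))
      have e : i - 1 + 1 = i := by omega
      rwa [e] at this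

theorem snake_inj (h : Valid v i j x) (h' : Valid v' i' j' x')
    (hS : snake v i j x = snake v' i' j' x') (hb : bits v i j x = bits v' i' j' x') :
    v = v' ∧ i = i' ∧ j = j' ∧ ∀ t < v, x t = x' t := by
  have h1 := h.hi; have h2 := h.hij; have h3 := h.hjv
  have h1' := h'.hi; have h2' := h'.hij; have h3' := h'.hjv
  unfold bits at hb
  simp only [Prod.mk.injEq] at hb
  obtain ⟨b1, b2, b3⟩ := hb
  have B : x j = x' j' ∧ neg (x i) = neg (x' i') := by
    refine pair_bit (h.ne_neg (by omega) (by omega)) (fun y => ?_) b1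
    rw [← h.branch y, hS, h'.branch y]
  obtain ⟨Bj, Bi⟩ := B
  have Bi' := neg_inj Bi
  -- start of the left loop
  have C : x 0 = x' 0 ∧ neg (x (i - 1)) = neg (x' (i' - 1)) := by
    refine pair_bit (h.ne_neg (by omega) (by omega)) (fun y => ?_) b2
    have e1 : ∀ y, arc (snake v i j x) (neg (x i)) y ↔ (y = x 0 ∨ y = neg (x (i - 1))) := by
      intro y
      constructor
      · intro ha
        rcases h.out_neg_i ha with e | e
        · right; exact e
        · left; exact e
      · rintro (rfl | rfl)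
        · exact h.arc_left
        · have := arc_contra (h.arc_path (t := i - 1) (by omega))
          have e : i - 1 + 1 = i := by omega
          rwa [e] at this
    have e2 : ∀ y, arc (snake v' i' j' x') (neg (x' i')) y ↔ (y = x' 0 ∨ y = neg (x' (i' - 1))) := by
      intro y
      constructor
      · intro ha
        rcases h'.out_neg_i ha with e | e
        · right; exact e
        · left; exact e
      · rintro (rfl | rfl)
        · exact h'.arc_left
        · have := arc_contra (h'.arc_path (t := i' - 1) (by omega))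
          have e : i' - 1 + 1 = i' := by omega
          rwa [e] at this
    rw [← e1 y, ← e2 y, ← hS, Bi]
  have D : ∀ t, t ≤ j → t ≤ j' → x t = x' t := by
    intro t
    induction t with
    | zero => intro _ _; exact C.1
    | succ t ih =>
      intro htj htj'
      have e := ih (by omega) (by omega)
      have ha : arc (snake v i j x) (x t) (x' (t + 1)) := by
        rw [hS, e]; exact h'.arc_path (by omega)
      exact (h.out_pos (by omega) (by omega) ha).symm
  have hjj : j = j' := by
    rcases lt_trichotomy j j' with hlt | heq | hgt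
    · have e := D j le_rfl hlt.le
      rw [Bj] at e
      exact ((h'.eq_iff (by omega) (by omega)).mp e).symm
    · exact heq
    · have e := D j' hgt.le le_rfl
      rw [← Bj] at e
      exact ((h.eq_iff (by omega) (by omega)).mp e).symm
  subst hjj
  have hii : i = i' := by
    have e := D i h2.le h2.le
    rw [Bi'] at e
    exact ((h'.eq_iff (by omega) (by omega)).mp e).symm
  subst hii
  have G : x (j + 1) = x' (j + 1) ∧ neg (x (v - 1)) = neg (x' (v' - 1)) := by
    refine pair_bit (h.ne_neg (by omega) (by omega)) (fun y => ?_) b3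
    have e1 : ∀ y, arc (snake v i j x) (x j) y ↔ (y = x (j + 1) ∨ y = neg (x (v - 1))) := by
      intro y
      constructor
      · intro ha
        exact h.out_j ha
      · rintro (rfl | rfl)
        · exact h.arc_path (by omega)
        · have := arc_contra h.arc_right
          rwa [neg_inv] at this
    have e2 : ∀ y, arc (snake v' i j x') (x' j) y ↔ (y = x' (j + 1) ∨ y = neg (x' (v' - 1))) := by
      intro y
      constructor
      · intro ha
        exact h'.out_j ha
      · rintro (rfl | rfl)
        · exact h'.arc_path (by omega)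
        · have := arc_contra h'.arc_right
          rwa [neg_inv] at this
    rw [← e1 y, ← e2 y, ← hS, Bj]
  have K : ∀ t, t < v → t < v' → x t = x' t := by
    intro t
    induction t with
    | zero => intro _ _; exact C.1
    | succ t ih =>
      intro htv htv'
      by_cases htj : t + 1 ≤ j
      · exact D (t + 1) htj htj
      · by_cases htj2 : t = j
        · subst htj2; exact G.1
        · have e := ih (by omega) (by omega)
          have ha : arc (snake v i j x) (x t) (x' (t + 1)) := by
            rw [hS, e]; exact h'.arc_path (by omega)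
          exact (h.out_pos (by omega) htj2 ha).symm
  have hvv : v = v' := by
    rcases lt_trichotomy v v' with hlt | heq | hgt
    · exfalso
      have e := K (v - 1) (by omega) (by omega)
      have ha : arc (snake v i j x) (x (v - 1)) (x' (v - 1 + 1)) := by
        rw [hS, e]; exact h'.arc_path (by omega)
      have e2 := h.out_last ha
      rw [Bj] at e2
      exact h'.ne_neg (by omega) (by omega) e2
    · exact heq
    · exfalso
      have e := K (v' - 1) (by omega) (by omega)
      have ha : arc (snake v' i j x') (x' (v' - 1)) (x (v' - 1 + 1)) := by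
        rw [← hS, ← e]; exact h.arc_path (by omega)
      have e2 := h'.out_last ha
      rw [← Bj] at e2
      exact h.ne_neg (by omega) (by omega) e2
  subst hvv
  exact ⟨rfl, rfl, rfl, fun t ht => K t ht ht⟩

end inj

lemma card_snake_le (v i j : ℕ) (hv : 1 ≤ v) (x : ℕ → Lit n) : (snake v i j x).card ≤ v + 1 := by
  classical
  -- the clause sets are images of few finsets
  have hsub : (snake v i j x).image Subtype.val ⊆
      (Finset.range (v - 1)).image (fun t => ({neg (x t), x (t + 1)} : Finset (Lit n))) ∪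
        {{x 0, x i}, {neg (x (v - 1)), neg (x j)}} := by
    intro s hs
    rw [Finset.mem_image] at hs
    obtain ⟨c, hc, rfl⟩ := hs
    rw [Finset.mem_union, Finset.mem_image]
    rcases mem_snake.mp hc with ⟨t, ht, e⟩ | e | e
    · left; exact ⟨t, Finset.mem_range.mpr ht, e.symm⟩
    · right; rw [e]; simp
    · right; rw [e]; simp
  have hcard : (snake v i j x).card = ((snake v i j x).image Subtype.val).card :=
    (Finset.card_image_of_injective _ Subtype.val_injective).symm
  rw [hcard]
  refine (Finset.card_le_card hsub).trans ((Finset.card_union_le _ _).trans ?_)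
  have a1 : ((Finset.range (v - 1)).image
      (fun t => ({neg (x t), x (t + 1)} : Finset (Lit n)))).card ≤ v - 1 := by
    have := Finset.card_image_le (s := Finset.range (v - 1))
      (f := fun t => ({neg (x t), x (t + 1)} : Finset (Lit n)))
    rwa [Finset.card_range] at this
  have a2 : ({{x 0, x i}, {neg (x (v - 1)), neg (x j)}} : Finset (Finset (Lit n))).card ≤ 2 :=
    Finset.card_le_two
  omega

end Pool.Agent.Helper86
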