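import Mathlib
import Pool.Agent.Helper86.Snake

set_option autoImplicit false
set_option linter.unusedSectionVars false

namespace Pool.Agent.Helper86

open Finset Relation

variable {n : ℕ}

/-- first moment bound for a family of distinct clauses -/
lemma first_moment {p : ℝ} (h0 : 0 ≤ p) (h1 : p ≤ 1) {L : ℕ} (q : Fin L → Finset (Lit n))
    (hq : Function.Injective q) :
    Ex p (fun F : Finset (Cl n) => ind (∀ t, ∃ c ∈ F, c.val = q t)) ≤ p ^ L := by
  classical
  by_cases hex : ∀ t, ∃ c : Cl n, c.val = q t
  · choose f hf using hex
    have hfinj : Function.Injective f := by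
      intro s t hst
      apply hq
      rw [← hf s, ← hf t, hst]
    have hcard : (Finset.univ.image f).card = L := by
      rw [Finset.card_image_of_injective _ hfinj]; simp
    calc Ex p (fun F : Finset (Cl n) => ind (∀ t, ∃ c ∈ F, c.val = q t))
        ≤ Ex p (fun F : Finset (Cl n) => ind (Finset.univ.image f ⊆ F)) := by
          refine Ex_mono h0 h1 (fun F => ind_mono (fun h => ?_))
          intro c hc
          rw [Finset.mem_image] at hc
          obtain ⟨t, _, rfl⟩ := hc
          obtain ⟨c', hc'F, hc'⟩ := h t
          have : c' = f t := Subtype.ext (by rw [hc', hf t])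
          rw [← this]; exact hc'F
      _ = p ^ L := by rw [Ex_subset, hcard]
  · have : (fun F : Finset (Cl n) => ind (∀ t, ∃ c ∈ F, c.val = q t)) = fun _ => 0 := by
      funext F
      apply ind_of_false
      intro h
      apply hex
      intro t
      obtain ⟨c, _, hc⟩ := h t
      exact ⟨c, hc⟩
    rw [this, Ex_const]
    positivity

lemma exists_trail {F : Finset (Cl n)} {P : Lit n → Prop} {a b : Lit n} (ha : P a) (hb : P b)
    (h : TransGen (arc F) a b) :
    ∃ (L : ℕ) (w : ℕ → Lit n), 1 ≤ L ∧ P (w 0) ∧ (∀ t, 1 ≤ t → t < L → ¬ P (w t)) ∧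
      (∀ s t, 1 ≤ s → s < L → 1 ≤ t → t < L → (w s).1 = (w t).1 → s = t) ∧
      (∀ t < L, arc F (w t) (w (t + 1))) ∧
      (P (w L) ∨ ∃ i, 1 ≤ i ∧ i < L ∧ w L = neg (w i)) := by
  by_contra hno
  have claim : ∀ z, TransGen (arc F) a z →
      ∃ (L : ℕ) (w : ℕ → Lit n), 1 ≤ L ∧ P (w 0) ∧ (∀ t, 1 ≤ t → t ≤ L → ¬ P (w t)) ∧
      (∀ s t, 1 ≤ s → s ≤ L → 1 ≤ t → t ≤ L → (w s).1 = (w t).1 → s = t) ∧
      (∀ t < L, arc F (w t) (w (t + 1))) ∧ w L = z := by
    intro z hz
    induction hz with
    | @single b hab =>
      by_cases hPb : P b
      · exfalso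
        apply hno
        refine ⟨1, fun t => if t = 0 then a else b, le_rfl, by simpa using ha, ?_, ?_, ?_, ?_⟩
        · intro t h1 h2; omega
        · intro s t h1 h2 h3 h4; omega
        · intro t ht
          have : t = 0 := by omega
          subst this
          simpa using hab
        · left; simpa using hPb
      · refine ⟨1, fun t => if t = 0 then a else b, le_rfl, by simpa using ha, ?_, ?_, ?_, ?_⟩
        · intro t h1 h2
          have : t ≠ 0 := by omega
          simpa [this] using hPb
        · intro s t h1 h2 h3 h4; omega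
        · intro t ht
          have : t = 0 := by omega
          subst this
          simpa using hab
        · simp
    | @tail b c hab hbc ih =>
      obtain ⟨L, w, hL, hw0, hnP, hinj, harc, hwL⟩ := ih
      have hext : ∀ t < L + 1, arc F (if t ≤ L then w t else c)
          (if t + 1 ≤ L then w (t + 1) else c) := by
        intro t ht
        by_cases htL : t = L
        · subst htL
          simp only [le_refl, if_true]
          rw [if_neg (by omega), hwL]; exact hbc
        · have h1 : t ≤ L := by omega
          have h2 : t + 1 ≤ L := by omega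
          rw [if_pos h1, if_pos h2]
          exact harc t (by omega)
      by_cases hPc : P c
      · exfalso
        apply hno
        refine ⟨L + 1, fun t => if t ≤ L then w t else c, by omega, ?_, ?_, ?_, hext, ?_⟩
        · simpa using hw0
        · intro t h1 h2
          have : t ≤ L := by omega
          simp only [this, if_true]
          exact hnP t h1 this
        · intro s t h1 h2 h3 h4 h5
          have e1 : s ≤ L := by omega
          have e2 : t ≤ L := by omega
          simp only [e1, e2, if_true] at h5
          exact hinj s t h1 e1 h3 e2 h5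
        · left
          simp only [show ¬ (L + 1 ≤ L) by omega, if_false]
          exact hPc
      · by_cases hrep : ∃ i, 1 ≤ i ∧ i ≤ L ∧ c.1 = (w i).1
        · obtain ⟨i, hi1, hiL, hci⟩ := hrep
          rcases eq_or_neg hci with e | e
          · exact ⟨i, w, hi1, hw0, fun t h1 h2 => hnP t h1 (by omega),
              fun s t h1 h2 h3 h4 h5 => hinj s t h1 (by omega) h3 (by omega) h5,
              fun t ht => harc t (by omega), e.symm⟩
          · exfalso
            apply hno
            refine ⟨L + 1, fun t => if t ≤ L then w t else c, by omega, ?_, ?_, ?_, hext, ?_⟩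
            · simpa using hw0
            · intro t h1 h2
              have : t ≤ L := by omega
              simp only [this, if_true]
              exact hnP t h1 this
            · intro s t h1 h2 h3 h4 h5
              have e1 : s ≤ L := by omega
              have e2 : t ≤ L := by omega
              simp only [e1, e2, if_true] at h5
              exact hinj s t h1 e1 h3 e2 h5
            · right
              refine ⟨i, hi1, by omega, ?_⟩
              simp only [show ¬ (L + 1 ≤ L) by omega, if_false, hiL, if_true]
              exact e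
        · push Not at hrep
          refine ⟨L + 1, fun t => if t ≤ L then w t else c, by omega, ?_, ?_, ?_, hext, ?_⟩
          · simpa using hw0
          · intro t h1 h2
            by_cases htL : t ≤ L
            · simp only [htL, if_true]
              exact hnP t h1 htL
            · simp only [htL, if_false]
              exact hPc
          · intro s t h1 h2 h3 h4 h5
            by_cases e1 : s ≤ L
            · by_cases e2 : t ≤ L
              · simp only [e1, e2, if_true] at h5
                exact hinj s t h1 e1 h3 e2 h5
              · simp only [e1, e2, if_true, if_false] at h5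
                exact absurd h5.symm (hrep s h1 e1)
            · by_cases e2 : t ≤ L
              · simp only [e1, e2, if_true, if_false] at h5
                exact absurd h5 (hrep t h3 e2)
              · omega
          · simp
  obtain ⟨L, w, hL, _, hnP, _, _, hwL⟩ := claim b h
  exact hnP L hL le_rfl (hwL ▸ hb)

/-- the walk attached to a trail index -/
def trailW (l : ℕ) (a : Lit n) (y : Fin l → Lit n) (e : Lit n ⊕ Fin l) (t : ℕ) : Lit n :=
  if t = 0 then a else if h : t - 1 < l then y ⟨t - 1, h⟩ else
    match e with
    | Sum.inl b => b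
    | Sum.inr i => neg (y i)

/-- validity of trail indices -/
def trailValid (P : Lit n → Prop) (l : ℕ) (w : ℕ → Lit n) : Prop :=
  P (w 0) ∧ (∀ t, 1 ≤ t → t < l + 1 → ¬ P (w t)) ∧
    (∀ s t, 1 ≤ s → s < l + 1 → 1 ≤ t → t < l + 1 → (w s).1 = (w t).1 → s = t)

lemma trail_inj {P : Lit n → Prop} {l : ℕ}
    {w : ℕ → Lit n} (h : trailValid P l w) :
    Function.Injective (fun t : Fin (l + 1) => ({neg (w t), w (t + 1)} : Finset (Lit n))) := by
  obtain ⟨h0, h1, h2⟩ := h
  have main : ∀ s t : ℕ, s < t → t < l + 1 →
      ({neg (w s), w (s + 1)} : Finset (Lit n)) ≠ {neg (w t), w (t + 1)} := by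
    intro s t hst ht e
    rcases pair_eq e with ⟨e1, _⟩ | ⟨_, e2⟩
    · have e1' := neg_inj e1
      rcases Nat.eq_zero_or_pos s with hs | hs
      · subst hs
        exact h1 t (by omega) ht (e1' ▸ h0)
      · have := h2 s t hs (by omega) (by omega) ht (by rw [e1'])
        omega
    · have hv : (w (s + 1)).1 = (w t).1 := by rw [e2]; rfl
      have := h2 (s + 1) t (by omega) (by omega) (by omega) ht hv
      rw [this] at e2
      exact neg_ne _ e2.symm
  intro s t hst
  rcases lt_trichotomy (s : ℕ) t with hlt | heq | hgt
  · exact absurd hst (main s t hlt t.2)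
  · exact Fin.ext heq
  · exact absurd hst.symm (main t s hgt s.2)

open Classical in
/-- bound on the probability of an implication path between literals over a set of variables -/
lemma trail_bound {p : ℝ} (h0 : 0 ≤ p) (h1 : p ≤ 1) (P : Lit n → Prop) :
    Ex p (fun F : Finset (Cl n) => ind (∃ a b, P a ∧ P b ∧ TransGen (arc F) a b)) ≤
      ∑ l ∈ Finset.range (n + 1), ((Finset.univ.filter P).card : ℝ) * (2 * n : ℝ) ^ l *
        (((Finset.univ.filter P).card : ℝ) + l) * p ^ (l + 1) := by
  set A : Finset (Lit n) := Finset.univ.filter P with hA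
  let I : (l : ℕ) → Finset (Lit n × (Fin l → Lit n) × (Lit n ⊕ Fin l)) := fun l =>
    A ×ˢ ((Finset.univ : Finset (Fin l → Lit n)) ×ˢ (A.disjSum Finset.univ))
  have hcardI : ∀ l, ((I l).card : ℝ) = (A.card : ℝ) * (2 * n : ℝ) ^ l * ((A.card : ℝ) + l) := by
    intro l
    simp only [I, Finset.card_product, Finset.card_disjSum, Finset.card_univ, Fintype.card_fun,
      Fintype.card_prod, Fintype.card_bool, Fintype.card_fin]
    push_cast
    ring
  -- pointwise union bound
  have hpt : ∀ F : Finset (Cl n), ind (∃ a b, P a ∧ P b ∧ TransGen (arc F) a b) ≤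
      ∑ l ∈ Finset.range (n + 1), ∑ ι ∈ I l,
        ind (trailValid P l (trailW l ι.1 ι.2.1 ι.2.2) ∧ ∀ t : Fin (l + 1), ∃ c ∈ F, c.val =
          {neg (trailW l ι.1 ι.2.1 ι.2.2 t), trailW l ι.1 ι.2.1 ι.2.2 (t + 1)}) := by
    intro F
    by_cases hex : ∃ a b, P a ∧ P b ∧ TransGen (arc F) a b
    · rw [ind_of_true hex]
      obtain ⟨a, b, ha, hb, hab⟩ := hex
      obtain ⟨L, w, hL, hw0, hnP, hinj, harc, hend⟩ := exists_trail ha hb hab
      obtain ⟨l, rfl⟩ : ∃ l, L = l + 1 := ⟨L - 1, by omega⟩
      have hln : l ≤ n := by
        have hinj' : Function.Injective (fun t : Fin l => (w (t + 1)).1) := by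
          intro s t hst
          have := hinj (s + 1) (t + 1) (by omega) (by omega) (by omega) (by omega) hst
          exact Fin.ext (by omega)
        have := Fintype.card_le_of_injective _ hinj'
        simpa using this
      -- the index
      obtain ⟨e, heA, he⟩ : ∃ e : Lit n ⊕ Fin l, e ∈ A.disjSum (Finset.univ : Finset (Fin l)) ∧
          ∀ t ≤ l + 1, trailW l (w 0) (fun t : Fin l => w (t + 1)) e t = w t := by
        have hcommon : ∀ e : Lit n ⊕ Fin l, ∀ t ≤ l,
            trailW l (w 0) (fun t : Fin l => w (t + 1)) e t = w t := by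
          intro e t ht
          unfold trailW
          by_cases ht0 : t = 0
          · rw [if_pos ht0, ht0]
          · rw [if_neg ht0, dif_pos (show t - 1 < l by omega)]
            simp only
            congr 1
            omega
        rcases hend with hPL | ⟨i, hi1, hi2, hiw⟩
        · refine ⟨Sum.inl (w (l + 1)), ?_, ?_⟩
          · rw [Finset.inl_mem_disjSum, hA]
            simpa using hPL
          · intro t ht
            by_cases htl : t ≤ l
            · exact hcommon _ t htl
            · have : t = l + 1 := by omega
              subst this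
              unfold trailW
              rw [if_neg (by omega), dif_neg (by omega)]
        · refine ⟨Sum.inr ⟨i - 1, by omega⟩, ?_, ?_⟩
          · rw [Finset.inr_mem_disjSum]; exact Finset.mem_univ _
          · intro t ht
            by_cases htl : t ≤ l
            · exact hcommon _ t htl
            · have : t = l + 1 := by omega
              subst this
              unfold trailW
              rw [if_neg (by omega), dif_neg (by omega), hiw]
              simp only
              congr 2
              omega
      have hmemI : ((w 0, (fun t : Fin l => w (t + 1)), e) :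
          Lit n × (Fin l → Lit n) × (Lit n ⊕ Fin l)) ∈ I l := by
        simp only [I, Finset.mem_product]
        refine ⟨?_, Finset.mem_univ _, heA⟩
        rw [hA]; simpa using hw0
      have hterm : ind (trailValid P l (trailW l (w 0) (fun t : Fin l => w (t + 1)) e) ∧
          ∀ t : Fin (l + 1), ∃ c ∈ F, c.val =
          {neg (trailW l (w 0) (fun t : Fin l => w (t + 1)) e t),
            trailW l (w 0) (fun t : Fin l => w (t + 1)) e (t + 1)}) = 1 := by
        apply ind_of_true
        refine ⟨⟨?_, ?_, ?_⟩, ?_⟩
        · rw [he 0 (by omega)]; exact hw0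
        · intro t ht1 ht2
          rw [he t (by omega)]; exact hnP t ht1 ht2
        · intro s t hs1 hs2 ht1 ht2
          rw [he s (by omega), he t (by omega)]
          exact hinj s t hs1 hs2 ht1 ht2
        · intro t
          rw [he t (by omega), he (t + 1) (by omega)]
          exact harc t t.2
      rw [← hterm]
      refine le_trans ?_ (Finset.single_le_sum (f := fun l => ∑ ι ∈ I l,
        ind (trailValid P l (trailW l ι.1 ι.2.1 ι.2.2) ∧ ∀ t : Fin (l + 1), ∃ c ∈ F, c.val =
          {neg (trailW l ι.1 ι.2.1 ι.2.2 t), trailW l ι.1 ι.2.1 ι.2.2 (t + 1)}))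
        (fun l _ => Finset.sum_nonneg (fun ι _ => ind_nonneg _))
        (Finset.mem_range.mpr (Nat.lt_succ_of_le hln)))
      exact Finset.single_le_sum (f := fun ι : Lit n × (Fin l → Lit n) × (Lit n ⊕ Fin l) =>
        ind (trailValid P l (trailW l ι.1 ι.2.1 ι.2.2) ∧ ∀ t : Fin (l + 1), ∃ c ∈ F, c.val =
          {neg (trailW l ι.1 ι.2.1 ι.2.2 t), trailW l ι.1 ι.2.1 ι.2.2 (t + 1)}))
        (fun ι _ => ind_nonneg _) hmemI
    · rw [ind_of_false hex]
      exact Finset.sum_nonneg (fun l _ => Finset.sum_nonneg (fun ι _ => ind_nonneg _))
  refine (Ex_mono h0 h1 hpt).trans ?_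
  rw [Ex_sum]
  refine Finset.sum_le_sum (fun l _ => ?_)
  rw [Ex_sum, ← hcardI l, ← nsmul_eq_mul]
  refine Finset.sum_le_card_nsmul _ _ _ (fun ι _ => ?_)
  by_cases hv : trailValid P l (trailW l ι.1 ι.2.1 ι.2.2)
  · refine le_trans (Ex_mono h0 h1 (fun F => ind_mono (fun h => h.2))) ?_
    exact first_moment h0 h1 _ (trail_inj hv)
  · have : (fun F : Finset (Cl n) => ind (trailValid P l (trailW l ι.1 ι.2.1 ι.2.2) ∧
        ∀ t : Fin (l + 1), ∃ c ∈ F, c.val =
          {neg (trailW l ι.1 ι.2.1 ι.2.2 t), trailW l ι.1 ι.2.1 ι.2.2 (t + 1)})) = fun _ => 0 := by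
      funext F
      exact ind_of_false (fun h => hv h.1)
    rw [this, Ex_const]
    positivity

end Pool.Agent.Helper86
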