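import Mathlib
import Pool.Agent.Helper86.Trails

set_option autoImplicit false
set_option linter.unusedSectionVars false

namespace Pool.Agent.Helper86

open Finset Relation

variable {n : ℕ}

/-- simple path extraction -/
lemma exists_simple {α : Type*} {r : α → α → Prop} {a b : α} (h : ReflTransGen r a b) :
    ∃ (l : ℕ) (z : ℕ → α), z 0 = a ∧ z l = b ∧ (∀ s t, s ≤ l → t ≤ l → z s = z t → s = t) ∧
      (∀ t < l, r (z t) (z (t + 1))) := by
  induction h with
  | refl => exact ⟨0, fun _ => a, rfl, rfl, fun s t hs ht _ => by omega, fun t ht => by omega⟩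
  | @tail b c h1 h2 ih =>
    obtain ⟨l, z, hz0, hzl, hinj, hr⟩ := ih
    by_cases hrep : ∃ i, i ≤ l ∧ z i = c
    · obtain ⟨i, hil, hic⟩ := hrep
      exact ⟨i, z, hz0, hic, fun s t hs ht => hinj s t (by omega) (by omega),
        fun t ht => hr t (by omega)⟩
    · push Not at hrep
      refine ⟨l + 1, fun t => if t ≤ l then z t else c, by simpa using hz0, by simp, ?_, ?_⟩
      · intro s t hs ht hst
        by_cases e1 : s ≤ l
        · by_cases e2 : t ≤ l
          · simp only [e1, e2, if_true] at hst
            exact hinj s t e1 e2 hst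
          · simp only [e1, e2, if_true, if_false] at hst
            exact absurd hst (hrep s e1)
        · by_cases e2 : t ≤ l
          · simp only [e1, e2, if_true, if_false] at hst
            exact absurd hst.symm (hrep t e2)
          · omega
      · intro t ht
        by_cases htl : t = l
        · subst htl
          simp only [le_refl, if_true]
          rw [if_neg (by omega), hzl]; exact h2
        · have e1 : t ≤ l := by omega
          have e2 : t + 1 ≤ l := by omega
          beta_reduce
          rw [if_pos e1, if_pos e2]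
          exact hr t (by omega)

lemma exists_lasso {F : Finset (Cl n)} (h : UAw F) :
    ∃ (l r a : ℕ) (z : ℕ → Lit n), 1 ≤ r ∧ r ≤ l ∧ a ≤ l ∧
      (∀ s t, s ≤ l → t ≤ l → (z s).1 = (z t).1 → s = t) ∧
      (∀ t < l, arc F (z t) (z (t + 1))) ∧ arc F (z l) (z a) ∧ ∃ c ∈ F, c.val = {z 0, z r} := by
  obtain ⟨σ, u, w, hu, hw, ⟨c, hcF, hc⟩, h1, h2⟩ := h
  obtain ⟨r, z0, hz0, hzr, hinj0, harc0⟩ := exists_simple h1
  have huw : u ≠ w := fun e => cl_ne hc (by rw [e])
  have hr : 1 ≤ r := by
    rcases Nat.eq_zero_or_pos r with e | e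
    · subst e; exact absurd (hz0.symm.trans hzr) huw
    · exact e
  by_contra hno
  have claim : ∀ y, ReflTransGen (arcT F σ) w y →
      ∃ (l : ℕ) (z : ℕ → Lit n), r ≤ l ∧ z 0 = u ∧ z r = w ∧ z l = y ∧
        (∀ s t, s ≤ l → t ≤ l → z s = z t → s = t) ∧ (∀ t ≤ l, Tr σ (z t)) ∧
        (∀ t < l, arc F (z t) (z (t + 1))) := by
    intro y hy
    induction hy with
    | refl =>
      refine ⟨r, z0, le_rfl, hz0, hzr, hzr, hinj0, ?_, fun t ht => (harc0 t ht).1⟩
      intro t ht
      rcases Nat.lt_or_ge t r with h | h
      · exact (harc0 t h).2.1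
      · have : t = r := by omega
        rw [this, hzr]; exact hw
    | @tail b c' hb hbc ih =>
      obtain ⟨l, z, hrl, hz0', hzr', hzl, hinj, hT, harc⟩ := ih
      by_cases hrep : ∃ a, a ≤ l ∧ z a = c'
      · exfalso
        obtain ⟨a, hal, hac⟩ := hrep
        apply hno
        refine ⟨l, r, a, z, hr, hrl, hal, ?_, harc, ?_, c, hcF, ?_⟩
        · intro s t hs ht hst
          rcases eq_or_neg hst with e | e
          · exact hinj s t hs ht e
          · exfalso
            have h1 := hT s hs
            rw [e, Tr_neg] at h1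
            exact h1 (hT t ht)
        · rw [hzl, hac]; exact hbc.1
        · rw [hz0', hzr']; exact hc
      · push Not at hrep
        refine ⟨l + 1, fun t => if t ≤ l then z t else c', by omega, ?_, ?_, ?_, ?_, ?_, ?_⟩
        · simpa using hz0'
        · simp only [hrl, if_true]; exact hzr'
        · simp
        · intro s t hs ht hst
          by_cases e1 : s ≤ l
          · by_cases e2 : t ≤ l
            · simp only [e1, e2, if_true] at hst
              exact hinj s t e1 e2 hst
            · simp only [e1, e2, if_true, if_false] at hst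
              exact absurd hst (hrep s e1)
          · by_cases e2 : t ≤ l
            · simp only [e1, e2, if_true, if_false] at hst
              exact absurd hst.symm (hrep t e2)
            · omega
        · intro t ht
          by_cases e1 : t ≤ l
          · simp only [e1, if_true]; exact hT t e1
          · simp only [e1, if_false]; exact hbc.2.2
        · intro t ht
          by_cases htl : t = l
          · subst htl
            simp only [le_refl, if_true]
            rw [if_neg (by omega), hzl]; exact hbc.1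
          · have e1 : t ≤ l := by omega
            have e2 : t + 1 ≤ l := by omega
            beta_reduce
            rw [if_pos e1, if_pos e2]
            exact harc t (by omega)
  obtain ⟨l, z, hrl, hz0', _, hzl, hinj, _, _⟩ := claim u h2
  have := hinj 0 l (by omega) le_rfl (hz0'.trans hzl.symm)
  omega

/-- the clauses of a lasso -/
def lassoQ (l : ℕ) (z : Fin (l + 1) → Lit n) (r a : Fin (l + 1)) (t : Fin (l + 2)) :
    Finset (Lit n) :=
  if h : (t : ℕ) < l then {neg (z ⟨t, by omega⟩), z ⟨t + 1, by omega⟩}
  else if (t : ℕ) = l then {neg (z (Fin.last l)), z a}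
  else {z 0, z r}

lemma lassoQ_inj {l : ℕ} {z : Fin (l + 1) → Lit n} {r a : Fin (l + 1)}
    (hz : ∀ s t, (z s).1 = (z t).1 → s = t) : Function.Injective (lassoQ l z r a) := by
  have hne : ∀ s t, z s ≠ neg (z t) := by
    intro s t e
    have : s = t := hz s t (by rw [e]; rfl)
    subst this
    exact neg_ne (z s) e.symm
  have hneg : ∀ (s t : Fin (l + 1)) (b c : Fin (l + 1)),
      ({neg (z s), z b} : Finset (Lit n)) = {neg (z t), z c} → s = t := by
    intro s t b c e
    rcases pair_eq e with ⟨e1, _⟩ | ⟨e1, _⟩
    · exact hz s t (by rw [neg_inj e1])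
    · exact absurd e1.symm (hne c s)
  have hpos : ∀ (s b c : Fin (l + 1)), ({neg (z s), z b} : Finset (Lit n)) ≠ {z 0, z c} := by
    intro s b c e
    rcases pair_eq e with ⟨e1, _⟩ | ⟨e1, _⟩
    · exact absurd e1.symm (hne 0 s)
    · exact absurd e1.symm (hne c s)
  intro s t hst
  unfold lassoQ at hst
  apply Fin.ext
  by_cases s1 : (s : ℕ) < l
  · rw [dif_pos s1] at hst
    by_cases t1 : (t : ℕ) < l
    · rw [dif_pos t1] at hst
      have := hneg _ _ _ _ hst
      simpa using this
    · rw [dif_neg t1] at hst
      by_cases t2 : (t : ℕ) = l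
      · rw [if_pos t2] at hst
        have := hneg _ _ _ _ hst
        have := congrArg Fin.val this
        simp at this
        omega
      · rw [if_neg t2] at hst
        exact absurd hst (hpos _ _ _)
  · rw [dif_neg s1] at hst
    by_cases s2 : (s : ℕ) = l
    · rw [if_pos s2] at hst
      by_cases t1 : (t : ℕ) < l
      · rw [dif_pos t1] at hst
        have := hneg _ _ _ _ hst
        have := congrArg Fin.val this
        simp at this
        omega
      · rw [dif_neg t1] at hst
        by_cases t2 : (t : ℕ) = l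
        · omega
        · rw [if_neg t2] at hst
          exact absurd hst (hpos _ _ _)
    · rw [if_neg s2] at hst
      by_cases t1 : (t : ℕ) < l
      · rw [dif_pos t1] at hst
        exact absurd hst.symm (hpos _ _ _)
      · rw [dif_neg t1] at hst
        by_cases t2 : (t : ℕ) = l
        · rw [if_pos t2] at hst
          exact absurd hst.symm (hpos _ _ _)
        · have := s.2
          have := t.2
          omega

open Classical in
/-- bound on the probability of a uniquely satisfiable subformula -/
lemma lasso_bound {p : ℝ} (h0 : 0 ≤ p) (h1 : p ≤ 1) :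
    Ex p (fun F : Finset (Cl n) => ind (UAw F)) ≤
      ∑ l ∈ Finset.range (n + 1), ((l : ℝ) + 1) ^ 2 * (2 * n : ℝ) ^ (l + 1) * p ^ (l + 2) := by
  have hpt : ∀ F : Finset (Cl n), ind (UAw F) ≤
      ∑ l ∈ Finset.range (n + 1),
        ∑ ι : (Fin (l + 1) → Lit n) × Fin (l + 1) × Fin (l + 1),
        ind ((∀ s t, (ι.1 s).1 = (ι.1 t).1 → s = t) ∧
          ∀ t : Fin (l + 2), ∃ c ∈ F, c.val = lassoQ l ι.1 ι.2.1 ι.2.2 t) := by
    intro F
    by_cases hex : UAw F
    · rw [ind_of_true hex]
      obtain ⟨l, r, a, z, hr, hrl, hal, hinj, harc, hcl, hpos⟩ := exists_lasso hex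
      have hln : l ≤ n := by
        have hinj' : Function.Injective (fun t : Fin (l + 1) => (z t).1) := by
          intro s t hst
          exact Fin.ext (hinj s t (by omega) (by omega) hst)
        have := Fintype.card_le_of_injective _ hinj'
        simp at this
        omega
      have hterm : ind ((∀ s t : Fin (l + 1), ((fun t : Fin (l + 1) => z t) s).1 =
          ((fun t : Fin (l + 1) => z t) t).1 → s = t) ∧
          ∀ t : Fin (l + 2), ∃ c ∈ F, c.val =
            lassoQ l (fun t : Fin (l + 1) => z t) ⟨r, by omega⟩ ⟨a, by omega⟩ t) = 1 := by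
        apply ind_of_true
        refine ⟨fun s t hst => Fin.ext (hinj s t (by omega) (by omega) hst), fun t => ?_⟩
        by_cases t1 : (t : ℕ) < l
        · have e : lassoQ l (fun t : Fin (l + 1) => z t) ⟨r, by omega⟩ ⟨a, by omega⟩ t
              = {neg (z t), z (t + 1)} := by
            unfold lassoQ; exact dif_pos t1
          obtain ⟨c, hc, hcv⟩ := harc t t1
          exact ⟨c, hc, hcv.trans e.symm⟩
        · by_cases t2 : (t : ℕ) = l
          · have e : lassoQ l (fun t : Fin (l + 1) => z t) ⟨r, by omega⟩ ⟨a, by omega⟩ t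
                = {neg (z l), z a} := by
              unfold lassoQ; rw [dif_neg t1, if_pos t2]; rfl
            obtain ⟨c, hc, hcv⟩ := hcl
            exact ⟨c, hc, hcv.trans e.symm⟩
          · have e : lassoQ l (fun t : Fin (l + 1) => z t) ⟨r, by omega⟩ ⟨a, by omega⟩ t
                = {z 0, z r} := by
              unfold lassoQ; rw [dif_neg t1, if_neg t2]; rfl
            obtain ⟨c, hc, hcv⟩ := hpos
            exact ⟨c, hc, hcv.trans e.symm⟩
      rw [← hterm]
      refine le_trans ?_ (Finset.single_le_sum (f := fun l =>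
        ∑ ι : (Fin (l + 1) → Lit n) × Fin (l + 1) × Fin (l + 1),
        ind ((∀ s t, (ι.1 s).1 = (ι.1 t).1 → s = t) ∧
          ∀ t : Fin (l + 2), ∃ c ∈ F, c.val = lassoQ l ι.1 ι.2.1 ι.2.2 t))
        (fun l _ => Finset.sum_nonneg (fun ι _ => ind_nonneg _))
        (Finset.mem_range.mpr (Nat.lt_succ_of_le hln)))
      exact Finset.single_le_sum
        (f := fun ι : (Fin (l + 1) → Lit n) × Fin (l + 1) × Fin (l + 1) =>
        ind ((∀ s t, (ι.1 s).1 = (ι.1 t).1 → s = t) ∧
          ∀ t : Fin (l + 2), ∃ c ∈ F, c.val = lassoQ l ι.1 ι.2.1 ι.2.2 t))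
        (fun ι _ => ind_nonneg _)
        (Finset.mem_univ ((fun t : Fin (l + 1) => z t), ⟨r, by omega⟩, ⟨a, by omega⟩))
    · rw [ind_of_false hex]
      exact Finset.sum_nonneg (fun l _ => Finset.sum_nonneg (fun ι _ => ind_nonneg _))
  refine (Ex_mono h0 h1 hpt).trans ?_
  rw [Ex_sum]
  refine Finset.sum_le_sum (fun l _ => ?_)
  rw [Ex_sum]
  have hcard : ((Finset.univ : Finset ((Fin (l + 1) → Lit n) × Fin (l + 1) × Fin (l + 1))).card : ℝ)
      = ((l : ℝ) + 1) ^ 2 * (2 * n : ℝ) ^ (l + 1) := by
    simp only [Finset.card_univ, Fintype.card_prod, Fintype.card_fun, Fintype.card_fin,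
      Fintype.card_bool]
    push_cast
    ring
  rw [← hcard, ← nsmul_eq_mul]
  refine Finset.sum_le_card_nsmul _ _ _ (fun ι _ => ?_)
  by_cases hv : ∀ s t, (ι.1 s).1 = (ι.1 t).1 → s = t
  · refine le_trans (Ex_mono h0 h1 (fun F => ind_mono (fun h => h.2))) ?_
    exact first_moment h0 h1 _ (lassoQ_inj hv)
  · have : (fun F : Finset (Cl n) => ind ((∀ s t, (ι.1 s).1 = (ι.1 t).1 → s = t) ∧
          ∀ t : Fin (l + 2), ∃ c ∈ F, c.val = lassoQ l ι.1 ι.2.1 ι.2.2 t)) = fun _ => 0 := by
      funext F
      exact ind_of_false (fun h => hv h.1)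
    rw [this, Ex_const]
    positivity

end Pool.Agent.Helper86
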