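import Mathlib
import Pool.Agent.Helper86.Lasso

set_option autoImplicit false
set_option linter.unusedSectionVars false

namespace Pool.Agent.Helper86

open Finset Relation

variable {n K : ℕ}

/-- number of variables of a snake with shape parameters `a` -/
def vv (a : Fin K × Fin K × Fin K) : ℕ := (a.1 : ℕ) + a.2.1 + a.2.2 + 4

def ii (a : Fin K × Fin K × Fin K) : ℕ := (a.1 : ℕ) + 1

def jj (a : Fin K × Fin K × Fin K) : ℕ := (a.1 : ℕ) + a.2.1 + 2

lemma vv_pos (a : Fin K × Fin K × Fin K) : 0 < vv a := by unfold vv; omega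

lemma vv_le (a : Fin K × Fin K × Fin K) : vv a ≤ 3 * K + 1 := by
  unfold vv
  have := a.1.2
  have := a.2.1.2
  have := a.2.2.2
  omega

/-- codes of snakes -/
abbrev Code (n K : ℕ) := Σ a : Fin K × Fin K × Fin K, (Fin (vv a) ↪ Fin n) × (Fin (vv a) → Bool)

/-- the literal sequence of a code -/
def seq (w : Code n K) (t : ℕ) : Lit n :=
  if h : t < vv w.1 then (w.2.1 ⟨t, h⟩, w.2.2 ⟨t, h⟩) else (w.2.1 ⟨0, vv_pos w.1⟩, true)

lemma seq_of_lt (w : Code n K) {t : ℕ} (h : t < vv w.1) :
    seq w t = (w.2.1 ⟨t, h⟩, w.2.2 ⟨t, h⟩) := dif_pos h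

lemma seq_valid (w : Code n K) : Valid (vv w.1) (ii w.1) (jj w.1) (seq w) where
  inj := by
    intro s t hs ht hst
    rw [seq_of_lt w hs, seq_of_lt w ht] at hst
    have := w.2.1.injective hst
    simpa using this
  hi := by unfold ii; omega
  hij := by unfold ii jj; omega
  hjv := by unfold jj vv; omega

/-- the snake of a code -/
def sn (w : Code n K) : Finset (Cl n) := snake (vv w.1) (ii w.1) (jj w.1) (seq w)

/-- symmetry bits of a code -/
def bt (w : Code n K) : Bool × Bool × Bool := bits (vv w.1) (ii w.1) (jj w.1) (seq w)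

lemma code_ext {w w' : Code n K} (hS : sn w = sn w') (hb : bt w = bt w') : w = w' := by
  obtain ⟨hv, hi, hj, hx⟩ := snake_inj (seq_valid w) (seq_valid w') hS hb
  rcases w with ⟨⟨a, b, c⟩, f, g⟩
  rcases w' with ⟨⟨a', b', c'⟩, f', g'⟩
  simp only [vv, ii, jj] at hv hi hj
  have ha : a = a' := Fin.ext (by omega)
  have hb' : b = b' := Fin.ext (by omega)
  have hc : c = c' := Fin.ext (by omega)
  subst ha
  subst hb'
  subst hc
  have hfg : ∀ t : Fin (vv (a, b, c)), f t = f' t ∧ g t = g' t := by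
    intro t
    have h := hx t t.2
    rw [seq_of_lt (⟨(a, b, c), f, g⟩ : Code n K) t.2,
      seq_of_lt (⟨(a, b, c), f', g'⟩ : Code n K) t.2] at h
    simpa [Prod.ext_iff] using h
  have hf : f = f' := by
    ext t
    rw [(hfg t).1]
  have hg : g = g' := by
    funext t
    exact (hfg t).2
  rw [hf, hg]

/-- good remainder -/
def Good (S X : Finset (Cl n)) : Prop := (∃ σ, SatF σ X) ∧ ¬ UAw X ∧ NoPath S X

/-- the target event: unsatisfiable without uniquely satisfiable witness -/
def Ev (F : Finset (Cl n)) : Prop := (¬ ∃ σ, SatF σ F) ∧ ¬ UAw F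

lemma UAw_mono {F G : Finset (Cl n)} (hFG : F ⊆ G) (h : UAw F) : UAw G := by
  obtain ⟨σ, u, w, hu, hw, ⟨c, hcF, hc⟩, h1, h2⟩ := h
  exact ⟨σ, u, w, hu, hw, ⟨c, hFG hcF, hc⟩,
    ReflTransGen.mono (fun _ _ h => arcT_mono hFG h) _ _ h1,
    ReflTransGen.mono (fun _ _ h => arcT_mono hFG h) _ _ h2⟩

lemma SatF_mono {F G : Finset (Cl n)} (hFG : F ⊆ G) {σ : Fin n → Bool} (h : SatF σ G) : SatF σ F :=
  fun c hc => h c (hFG hc)

lemma Ev_of_code {F : Finset (Cl n)} {w : Code n K} (h1 : sn w ⊆ F) (h2 : Good (sn w) (F \ sn w)) :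
    Ev F := by
  obtain ⟨_, hu, hG⟩ := h2
  refine ⟨?_, ?_⟩
  · rintro ⟨σ, hσ⟩
    exact (seq_valid w).not_sat σ (SatF_mono h1 hσ)
  · intro h
    exact hu (UAw_sdiff hG (fun σ y => (seq_valid w).no_closed σ y) h)

open Classical in
lemma sum_codes_le (F : Finset (Cl n)) :
    ∑ w : Code n K, ind (sn w ⊆ F) * ind (Good (sn w) (F \ sn w)) ≤ 8 * ind (Ev F) := by
  have e1 : ∀ w : Code n K, ind (sn w ⊆ F) * ind (Good (sn w) (F \ sn w)) =
      if (sn w ⊆ F ∧ Good (sn w) (F \ sn w)) then 1 else 0 := by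
    intro w
    rw [← ind_and]
    unfold ind
    split_ifs <;> rfl
  simp_rw [e1]
  rw [Finset.sum_boole]
  set T := Finset.univ.filter (fun w : Code n K => sn w ⊆ F ∧ Good (sn w) (F \ sn w)) with hT
  by_cases hE : Ev F
  · rw [ind_of_true hE, mul_one]
    have hinj : Set.InjOn bt (T : Set (Code n K)) := by
      intro w hw w' hw' hb
      rw [hT, Finset.coe_filter] at hw hw'
      obtain ⟨_, h1, h2⟩ := hw
      obtain ⟨_, h1', h2'⟩ := hw'
      have s1 : sn w ⊆ sn w' := (seq_valid w).subset_of h2'.2.2 h2'.1 h1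
      have s2 : sn w' ⊆ sn w := (seq_valid w').subset_of h2.2.2 h2.1 h1'
      exact code_ext (Finset.Subset.antisymm s1 s2) hb
    have hcard : T.card ≤ (Finset.univ : Finset (Bool × Bool × Bool)).card :=
      Finset.card_le_card_of_injOn bt (fun _ _ => Finset.mem_univ _) hinj
    have h8 : (Finset.univ : Finset (Bool × Bool × Bool)).card = 8 := rfl
    rw [h8] at hcard
    exact_mod_cast hcard
  · have : T = ∅ := by
      rw [hT, Finset.filter_eq_empty_iff]
      rintro w _ ⟨h1, h2⟩
      exact hE (Ev_of_code h1 h2)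
    rw [this, ind_of_false hE]
    simp

/-- `F` has an implication path between two literals over the variables of `S` -/
def HasPath (S F : Finset (Cl n)) : Prop :=
  ∃ a b : Lit n, lits S a ∧ lits S b ∧ TransGen (arc F) a b

lemma good_lower (S F : Finset (Cl n)) :
    1 - ind (Ev F) - ind (UAw F) - ind (HasPath S F) ≤ ind (Good S (F \ S)) := by
  by_cases hg : Good S (F \ S)
  · rw [ind_of_true hg]
    have := ind_nonneg (Ev F)
    have := ind_nonneg (UAw F)
    have := ind_nonneg (HasPath S F)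
    linarith
  · rw [ind_of_false hg]
    have hsub : F \ S ⊆ F := Finset.sdiff_subset
    have h3 : Ev F ∨ UAw F ∨ HasPath S F := by
      by_cases hu : UAw F
      · right; left; exact hu
      · by_cases hp : HasPath S F
        · right; right; exact hp
        · left
          refine ⟨?_, hu⟩
          rintro ⟨σ, hσ⟩
          apply hg
          refine ⟨⟨σ, SatF_mono hsub hσ⟩, fun h => hu (UAw_mono hsub h), ?_⟩
          intro a b ha hb hab
          exact hp ⟨a, b, ha, hb, TransGen.mono (fun _ _ h => arc_mono hsub h) _ _ hab⟩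
    have n1 := ind_nonneg (Ev F)
    have n2 := ind_nonneg (UAw F)
    have n3 := ind_nonneg (HasPath S F)
    rcases h3 with h | h | h
    · rw [ind_of_true h] at *; linarith
    · rw [ind_of_true h] at *; linarith
    · rw [ind_of_true h] at *; linarith

/-- key inequality -/
lemma key_ineq {p A η : ℝ} (h0 : 0 ≤ p) (h1 : p ≤ 1)
    (hA : Ex p (fun F : Finset (Cl n) => ind (UAw F)) ≤ A)
    (hη : ∀ w : Code n K, Ex p (fun F : Finset (Cl n) => ind (HasPath (sn w) F)) ≤ η)
    (hpos : 0 ≤ 1 - Ex p (fun F : Finset (Cl n) => ind (Ev F)) - A - η) :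
    (∑ w : Code n K, p ^ (vv w.1 + 1)) *
      (1 - Ex p (fun F : Finset (Cl n) => ind (Ev F)) - A - η) ≤
      8 * Ex p (fun F : Finset (Cl n) => ind (Ev F)) := by
  set x := Ex p (fun F : Finset (Cl n) => ind (Ev F)) with hx
  have hsum : Ex p (fun F : Finset (Cl n) =>
      ∑ w : Code n K, ind (sn w ⊆ F) * ind (Good (sn w) (F \ sn w))) ≤ 8 * x := by
    rw [hx, ← Ex_const_mul]
    exact Ex_mono h0 h1 (fun F => sum_codes_le F)
  rw [Ex_sum] at hsum
  refine le_trans ?_ hsum
  rw [Finset.sum_mul]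
  refine Finset.sum_le_sum (fun w _ => ?_)
  rw [Ex_superset p (sn w) (fun X => ind (Good (sn w) X))]
  have hlow : 1 - x - A - η ≤ Ex p (fun F : Finset (Cl n) => ind (Good (sn w) (F \ sn w))) := by
    have := Ex_mono h0 h1 (fun F : Finset (Cl n) => good_lower (sn w) F)
    rw [Ex_sub, Ex_sub, Ex_sub, Ex_const] at this
    have := hη w
    linarith
  have hpow : p ^ (vv w.1 + 1) ≤ p ^ (sn w).card :=
    pow_le_pow_of_le_one h0 h1 (card_snake_le _ _ _ (vv_pos w.1) _)
  calc p ^ (vv w.1 + 1) * (1 - x - A - η)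
      ≤ p ^ (sn w).card * (1 - x - A - η) := mul_le_mul_of_nonneg_right hpow hpos
    _ ≤ p ^ (sn w).card * Ex p (fun F : Finset (Cl n) => ind (Good (sn w) (F \ sn w))) :=
        mul_le_mul_of_nonneg_left hlow (by positivity)

open Classical in
lemma card_lits_snake (w : Code n K) :
    (Finset.univ.filter (lits (sn w))).card ≤ 2 * vv w.1 := by
  have hsub : Finset.univ.filter (lits (sn w)) ⊆
      (Finset.range (vv w.1)).image (fun t => seq w t) ∪
      (Finset.range (vv w.1)).image (fun t => neg (seq w t)) := by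
    intro y hy
    simp only [Finset.mem_filter, Finset.mem_univ, true_and] at hy
    obtain ⟨c, hc, l, hl, hly⟩ := hy
    have hval := seq_valid w
    have v1 := hval.hi; have v2 := hval.hij; have v3 := hval.hjv
    have hex : ∃ t < vv w.1, (seq w t).1 = y.1 := by
      rcases mem_snake.mp hc with ⟨t, ht, e⟩ | e | e
      · rw [e] at hl
        simp only [Finset.mem_insert, Finset.mem_singleton] at hl
        rcases hl with rfl | rfl
        · exact ⟨t, by omega, hly⟩
        · exact ⟨t + 1, by omega, hly⟩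
      · rw [e] at hl
        simp only [Finset.mem_insert, Finset.mem_singleton] at hl
        rcases hl with rfl | rfl
        · exact ⟨0, by omega, hly⟩
        · exact ⟨ii w.1, by omega, hly⟩
      · rw [e] at hl
        simp only [Finset.mem_insert, Finset.mem_singleton] at hl
        rcases hl with rfl | rfl
        · exact ⟨vv w.1 - 1, by omega, hly⟩
        · exact ⟨jj w.1, by omega, hly⟩
    obtain ⟨t, ht, hty⟩ := hex
    rw [Finset.mem_union, Finset.mem_image, Finset.mem_image]
    rcases eq_or_neg hty with e | e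
    · left; exact ⟨t, Finset.mem_range.mpr ht, e⟩
    · right; exact ⟨t, Finset.mem_range.mpr ht, by rw [e, neg_inv]⟩
  refine (Finset.card_le_card hsub).trans ((Finset.card_union_le _ _).trans ?_)
  have a1 := Finset.card_image_le (s := Finset.range (vv w.1)) (f := fun t => seq w t)
  have a2 := Finset.card_image_le (s := Finset.range (vv w.1)) (f := fun t => neg (seq w t))
  rw [Finset.card_range] at a1 a2
  omega

lemma sum_codes_eq (p : ℝ) : ∑ w : Code n K, p ^ (vv w.1 + 1) =
    ∑ a : Fin K × Fin K × Fin K, (n.descFactorial (vv a) : ℝ) * 2 ^ (vv a) * p ^ (vv a + 1) := by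
  rw [Fintype.sum_sigma]
  refine Finset.sum_congr rfl (fun a _ => ?_)
  simp only [Finset.sum_const, Finset.card_univ, Fintype.card_prod, Fintype.card_embedding_eq,
    Fintype.card_fin, Fintype.card_fun, Fintype.card_bool, nsmul_eq_mul]
  push_cast
  ring

end Pool.Agent.Helper86
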