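import Mathlib
import Pool.Agent.Helper86.Codes

set_option autoImplicit false
set_option linter.unusedSectionVars false

namespace Pool.Agent.Helper86

open Finset Relation

lemma geo_sum (k : ℕ) {r : ℝ} (h0 : 0 ≤ r) (h1 : r < 1) (N : ℕ) :
    ∑ l ∈ Finset.range N, ((l + k).choose k : ℝ) * r ^ l ≤ 1 / (1 - r) ^ (k + 1) := by
  have hr : ‖r‖ < 1 := by rw [Real.norm_of_nonneg h0]; exact h1
  rw [← tsum_choose_mul_geometric_of_norm_lt_one k hr]
  exact (summable_choose_mul_geometric_of_norm_lt_one k hr).sum_le_tsum _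
    (fun l _ => by positivity)

lemma geo1 {k : ℝ} (hk : 1 ≤ k) (N : ℕ) :
    ∑ l ∈ Finset.range N, (1 - 1 / k) ^ l ≤ k := by
  have h0 : 0 ≤ 1 - 1 / k := by
    have : 1 / k ≤ 1 := by rw [div_le_one (by linarith)]; exact hk
    linarith
  have h1 : 1 - 1 / k < 1 := by
    have : 0 < 1 / k := by positivity
    linarith
  have := geo_sum 0 h0 h1 N
  simpa using this

lemma geo2 {k : ℝ} (hk : 1 ≤ k) (N : ℕ) :
    ∑ l ∈ Finset.range N, ((l : ℝ) + 1) * (1 - 1 / k) ^ l ≤ k ^ 2 := by
  have h0 : 0 ≤ 1 - 1 / k := by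
    have : 1 / k ≤ 1 := by rw [div_le_one (by linarith)]; exact hk
    linarith
  have h1 : 1 - 1 / k < 1 := by
    have : 0 < 1 / k := by positivity
    linarith
  have := geo_sum 1 h0 h1 N
  have e : 1 / (1 - (1 - 1 / k)) ^ (1 + 1) = k ^ 2 := by
    have hk0 : k ≠ 0 := by linarith
    have e0 : 1 - (1 - 1 / k) = k⁻¹ := by rw [one_div]; ring
    rw [e0, inv_pow, one_div, inv_inv]
  rw [e] at this
  refine le_trans (le_of_eq ?_) this
  refine Finset.sum_congr rfl (fun l _ => ?_)
  rw [Nat.choose_one_right]; push_cast; ring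

lemma geo3 {k : ℝ} (hk : 1 ≤ k) (N : ℕ) :
    ∑ l ∈ Finset.range N, ((l : ℝ) + 1) ^ 2 * (1 - 1 / k) ^ l ≤ 2 * k ^ 3 := by
  have h0 : 0 ≤ 1 - 1 / k := by
    have : 1 / k ≤ 1 := by rw [div_le_one (by linarith)]; exact hk
    linarith
  have h1 : 1 - 1 / k < 1 := by
    have : 0 < 1 / k := by positivity
    linarith
  have := geo_sum 2 h0 h1 N
  have e : 1 / (1 - (1 - 1 / k)) ^ (2 + 1) = k ^ 3 := by
    have hk0 : k ≠ 0 := by linarith
    have e0 : 1 - (1 - 1 / k) = k⁻¹ := by rw [one_div]; ring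
    rw [e0, inv_pow, one_div, inv_inv]
  rw [e] at this
  have h2 : ∑ l ∈ Finset.range N, ((l : ℝ) + 1) ^ 2 * (1 - 1 / k) ^ l ≤
      ∑ l ∈ Finset.range N, 2 * (((l + 2).choose 2 : ℝ) * (1 - 1 / k) ^ l) := by
    refine Finset.sum_le_sum (fun l _ => ?_)
    have hc : ((l + 2).choose 2 : ℝ) = ((l : ℝ) + 2) * (l + 1) / 2 := by
      rw [Nat.cast_choose_two]; push_cast; ring
    rw [hc, ← mul_assoc]
    refine mul_le_mul_of_nonneg_right ?_ (by positivity)
    have : (0 : ℝ) ≤ l := by positivity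
    nlinarith
  rw [← Finset.mul_sum] at h2
  linarith

lemma pow_lower {K : ℕ} (hK : 16 ≤ K) : (1 / 4 : ℝ) ^ 16 ≤ (1 - 2 / (K : ℝ)) ^ (4 * K) := by
  have hk : (16 : ℝ) ≤ (K : ℝ) := by exact_mod_cast hK
  have hb0 : 0 ≤ 1 - 2 / (K : ℝ) := by
    have : 2 / (K : ℝ) ≤ 1 := by rw [div_le_one (by linarith)]; linarith
    linarith
  have hb1 : 1 - 2 / (K : ℝ) ≤ 1 := by
    have : 0 ≤ 2 / (K : ℝ) := by positivity
    linarith
  set q := (K + 3) / 4 with hq
  have hq1 : 4 * K ≤ q * 16 := by omega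
  have hq2 : q * 4 ≤ K + 3 := by omega
  have hq2' : (q : ℝ) * 4 ≤ K + 3 := by exact_mod_cast hq2
  have h1 : (1 / 4 : ℝ) ≤ (1 - 2 / (K : ℝ)) ^ q := by
    have hB := one_add_mul_le_pow (a := -(2 / (K : ℝ))) (by
      have : 2 / (K : ℝ) ≤ 1 := by rw [div_le_one (by linarith)]; linarith
      linarith) q
    have e : 1 + -(2 / (K : ℝ)) = 1 - 2 / (K : ℝ) := by ring
    rw [e] at hB
    refine le_trans ?_ hB
    have h3 : (q : ℝ) * (2 / K) ≤ 3 / 4 := by
      rw [mul_div_assoc', div_le_iff₀ (by linarith)]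
      nlinarith
    linarith
  calc (1 / 4 : ℝ) ^ 16 ≤ ((1 - 2 / (K : ℝ)) ^ q) ^ 16 := pow_le_pow_left₀ (by norm_num) h1 16
    _ = (1 - 2 / (K : ℝ)) ^ (q * 16) := by rw [pow_mul]
    _ ≤ (1 - 2 / (K : ℝ)) ^ (4 * K) := pow_le_pow_of_le_one hb0 hb1 hq1

/-- explicit constant -/
noncomputable def M0 : ℝ := (1 / 4 : ℝ) ^ 16 / 4608

lemma M0_pos : 0 < M0 := by unfold M0; positivity

lemma M0_le : M0 ≤ 1 := by unfold M0; norm_num

theorem main_bound {K n : ℕ} (hK : 16 ≤ K) (h1 : 144 * K ^ 3 ≤ n) (h2 : n ≤ 1152 * K ^ 3) :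
    ∃ p : ℝ, 0 ≤ p ∧ p ≤ 1 ∧ M0 / 18 ≤ Ex p (fun F : Finset (Cl n) => ind (Ev F)) := by
  have hk : (16 : ℝ) ≤ (K : ℝ) := by exact_mod_cast hK
  set k : ℝ := (K : ℝ) with hkdef
  set m : ℝ := (n : ℝ) with hmdef
  have h1' : 144 * k ^ 3 ≤ m := by rw [hkdef, hmdef]; exact_mod_cast h1
  have h2' : m ≤ 1152 * k ^ 3 := by rw [hkdef, hmdef]; exact_mod_cast h2
  have hk3 : 0 < k ^ 3 := by positivity
  have hm : 0 < m := by linarith
  set c : ℝ := 1 - 1 / k with hc
  have hc0 : 1 / 2 ≤ c := by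
    have : 1 / k ≤ 1 / 2 := one_div_le_one_div_of_le (by norm_num) (by linarith)
    linarith
  have hc1 : c ≤ 1 := by
    have : 0 ≤ 1 / k := by positivity
    linarith
  set p : ℝ := c / (2 * m) with hp
  have hp0 : 0 ≤ p := by positivity
  have hpm : 2 * m * p = c := by rw [hp]; field_simp
  have hm1 : 1 ≤ m := by nlinarith [pow_le_pow_left₀ (by norm_num : (0:ℝ) ≤ 1) (by linarith : (1:ℝ) ≤ k) 3]
  have hp1 : p ≤ 1 := by
    rw [hp, div_le_one (by positivity)]; linarith
  have hp2 : p ≤ 1 / (2 * m) := by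
    rw [hp]; exact div_le_div_of_nonneg_right hc1 (by positivity)
  refine ⟨p, hp0, hp1, ?_⟩
  -- bound for uniquely satisfiable witnesses
  have hA : Ex p (fun F : Finset (Cl n) => ind (UAw F)) ≤ 1 / 4 := by
    refine (lasso_bound hp0 hp1).trans ?_
    have e : ∑ l ∈ Finset.range (n + 1), ((l : ℝ) + 1) ^ 2 * (2 * (n : ℝ)) ^ (l + 1) * p ^ (l + 2)
        = (p * c) * ∑ l ∈ Finset.range (n + 1), ((l : ℝ) + 1) ^ 2 * c ^ l := by
      rw [Finset.mul_sum]
      refine Finset.sum_congr rfl (fun l _ => ?_)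
      rw [← hpm, mul_pow (2 * m) p l]
      ring
    rw [e]
    have g := geo3 (k := k) (by linarith) (n + 1)
    have hpc : p * c ≤ 1 / (2 * m) := by nlinarith
    have hpc0 : 0 ≤ p * c := by positivity
    calc p * c * ∑ l ∈ Finset.range (n + 1), ((l : ℝ) + 1) ^ 2 * c ^ l
        ≤ 1 / (2 * m) * (2 * k ^ 3) := by
          refine mul_le_mul hpc g ?_ (by positivity)
          exact Finset.sum_nonneg (fun l _ => by positivity)
      _ = k ^ 3 / m := by field_simp
      _ ≤ 1 / 4 := by rw [div_le_iff₀ hm]; linarith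
  -- bound for paths
  have hη : ∀ w : Code n K, Ex p (fun F : Finset (Cl n) => ind (HasPath (sn w) F)) ≤ 1 / 4 := by
    intro w
    classical
    have hb := trail_bound hp0 hp1 (n := n) (lits (sn w))
    have hcard : ((Finset.univ.filter (lits (sn w))).card : ℝ) ≤ 8 * k := by
      have a1 := card_lits_snake w
      have a2 := vv_le w.1
      have a3 : (Finset.univ.filter (lits (sn w))).card ≤ 8 * K := by
        refine (le_trans (le_of_eq ?_) (a1.trans (by omega)))
        congr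
      rw [hkdef]; exact_mod_cast a3
    have hcard' : ∀ inst : DecidablePred (lits (sn w)),
        ((@Finset.filter _ (lits (sn w)) inst Finset.univ).card : ℝ) ≤ 8 * k := by
      intro inst
      convert hcard
    refine le_trans ?_ (hb.trans ?_)
    · exact le_of_eq rfl
    · set A : ℝ := ((@Finset.filter _ (lits (sn w)) (fun a => Classical.propDecidable _) Finset.univ).card : ℝ) with hAdef
      have hA8 : A ≤ 8 * k := hcard' _
      have hA0 : 0 ≤ A := by rw [hAdef]; positivity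
      have e : ∑ l ∈ Finset.range (n + 1), A * (2 * (n : ℝ)) ^ l * (A + l) * p ^ (l + 1)
          ≤ A * p * (A * ∑ l ∈ Finset.range (n + 1), c ^ l +
            ∑ l ∈ Finset.range (n + 1), ((l : ℝ) + 1) * c ^ l) := by
        rw [Finset.mul_sum, ← Finset.sum_add_distrib, Finset.mul_sum]
        refine Finset.sum_le_sum (fun l _ => ?_)
        have e1 : A * (2 * (n : ℝ)) ^ l * (A + l) * p ^ (l + 1) = A * p * ((A + l) * c ^ l) := by
          rw [← hpm, mul_pow (2 * m) p l]
          ring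
        rw [e1]
        refine mul_le_mul_of_nonneg_left ?_ (by positivity)
        have : 0 ≤ c ^ l := by positivity
        nlinarith
      refine e.trans ?_
      have g1 := geo1 (k := k) (by linarith) (n + 1)
      have g2 := geo2 (k := k) (by linarith) (n + 1)
      have hS : A * ∑ l ∈ Finset.range (n + 1), c ^ l +
            ∑ l ∈ Finset.range (n + 1), ((l : ℝ) + 1) * c ^ l ≤ 9 * k ^ 2 := by
        have : A * ∑ l ∈ Finset.range (n + 1), c ^ l ≤ 8 * k * k :=
          mul_le_mul hA8 g1 (Finset.sum_nonneg (fun l _ => by positivity)) (by positivity)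
        nlinarith
      have hAp : A * p ≤ 8 * k * (1 / (2 * m)) :=
        mul_le_mul hA8 hp2 hp0 (by positivity)
      calc A * p * (A * ∑ l ∈ Finset.range (n + 1), c ^ l +
            ∑ l ∈ Finset.range (n + 1), ((l : ℝ) + 1) * c ^ l)
          ≤ 8 * k * (1 / (2 * m)) * (9 * k ^ 2) := by
            refine mul_le_mul hAp hS ?_ (by positivity)
            have s1 : 0 ≤ ∑ l ∈ Finset.range (n + 1), c ^ l :=
              Finset.sum_nonneg (fun l _ => by positivity)
            have s2 : 0 ≤ ∑ l ∈ Finset.range (n + 1), ((l : ℝ) + 1) * c ^ l :=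
              Finset.sum_nonneg (fun l _ => by positivity)
            positivity
        _ = 36 * k ^ 3 / m := by field_simp; ring
        _ ≤ 1 / 4 := by rw [div_le_iff₀ hm]; linarith
  -- lower bound for the number of codes
  have hM : M0 ≤ ∑ w : Code n K, p ^ (vv w.1 + 1) := by
    rw [sum_codes_eq]
    have hterm : ∀ a : Fin K × Fin K × Fin K, p * (1 / 4 : ℝ) ^ 16 ≤
        (n.descFactorial (vv a) : ℝ) * 2 ^ (vv a) * p ^ (vv a + 1) := by
      intro a
      have hv := vv_le a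
      have hKn : 4 * K ≤ n := by
        have : 4 * K ≤ 144 * K ^ 3 := by nlinarith [Nat.pow_le_pow_left (show 1 ≤ K by omega) 2, Nat.pos_of_ne_zero (show K ≠ 0 by omega)]
        omega
      have hvn : vv a ≤ n + 1 := by omega
      have hd : ((n + 1 - vv a : ℕ) : ℝ) ^ (vv a) ≤ (n.descFactorial (vv a) : ℝ) := by
        exact_mod_cast Nat.pow_sub_le_descFactorial n (vv a)
      have hsub : m - 4 * k ≤ ((n + 1 - vv a : ℕ) : ℝ) := by
        rw [Nat.cast_sub hvn]
        have : (vv a : ℝ) ≤ 4 * k := by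
          rw [hkdef]
          have : vv a ≤ 4 * K := by omega
          exact_mod_cast this
        push_cast
        linarith
      have hmk : 0 ≤ m - 4 * k := by
        have : (4 * K : ℝ) ≤ n := by exact_mod_cast hKn
        rw [hkdef, hmdef]; linarith
      have hbase : 1 - 2 / k ≤ (m - 4 * k) * (2 * p) := by
        have e1 : (m - 4 * k) * (2 * p) = c * (1 - 4 * k / m) := by
          rw [hp]; field_simp
        rw [e1]
        have h4 : 4 * k / m ≤ 1 / k := by
          rw [div_le_div_iff₀ hm (by linarith)]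
          nlinarith
        have h5 : 1 / k ≤ 1 / 16 := one_div_le_one_div_of_le (by norm_num) hk
        have h6 : 0 ≤ 1 / k := by positivity
        have e2 : 2 / k = 2 * (1 / k) := by ring
        rw [e2, hc]
        nlinarith
      have hb0 : 0 ≤ 1 - 2 / k := by
        have : 2 / k ≤ 1 := by rw [div_le_one (by linarith)]; linarith
        linarith
      have hb1 : 1 - 2 / k ≤ 1 := by
        have : 0 ≤ 2 / k := by positivity
        linarith
      calc p * (1 / 4 : ℝ) ^ 16 ≤ p * (1 - 2 / k) ^ (4 * K) :=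
            mul_le_mul_of_nonneg_left (pow_lower hK) hp0
        _ ≤ p * (1 - 2 / k) ^ (vv a) :=
            mul_le_mul_of_nonneg_left (pow_le_pow_of_le_one hb0 hb1 (by omega)) hp0
        _ ≤ p * ((m - 4 * k) * (2 * p)) ^ (vv a) :=
            mul_le_mul_of_nonneg_left (pow_le_pow_left₀ hb0 hbase _) hp0
        _ = (m - 4 * k) ^ (vv a) * 2 ^ (vv a) * p ^ (vv a + 1) := by
            rw [mul_pow, mul_pow]; ring
        _ ≤ (n.descFactorial (vv a) : ℝ) * 2 ^ (vv a) * p ^ (vv a + 1) := by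
            refine mul_le_mul_of_nonneg_right ?_ (by positivity)
            refine mul_le_mul_of_nonneg_right ?_ (by positivity)
            exact (pow_le_pow_left₀ hmk hsub _).trans hd
    have hsum := Finset.card_nsmul_le_sum (Finset.univ : Finset (Fin K × Fin K × Fin K)) _ _
      (fun a _ => hterm a)
    refine le_trans ?_ hsum
    simp only [Finset.card_univ, Fintype.card_prod, Fintype.card_fin, nsmul_eq_mul]
    push_cast
    have hp3 : 1 / (4608 * k ^ 3) ≤ p := by
      rw [hp, div_le_div_iff₀ (by positivity) (by positivity)]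
      nlinarith
    unfold M0
    have : (K : ℝ) * (K * K) * (p * (1 / 4) ^ 16) = (k ^ 3 * p) * (1 / 4) ^ 16 := by
      rw [hkdef]; ring
    rw [this]
    have h7 : 1 / 4608 ≤ k ^ 3 * p := by
      have := mul_le_mul_of_nonneg_left hp3 hk3.le
      have e : k ^ 3 * (1 / (4608 * k ^ 3)) = 1 / 4608 := by field_simp
      linarith
    have h8 : (0 : ℝ) ≤ (1 / 4) ^ 16 := by positivity
    calc (1 / 4 : ℝ) ^ 16 / 4608 = 1 / 4608 * (1 / 4) ^ 16 := by ring
      _ ≤ k ^ 3 * p * (1 / 4) ^ 16 := mul_le_mul_of_nonneg_right h7 h8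
  by_contra hcon
  push Not at hcon
  set x := Ex p (fun F : Finset (Cl n) => ind (Ev F)) with hx
  have hM01 := M0_le
  have hM00 := M0_pos
  have hxn : x < 1 / 18 := by linarith
  have hx0 : 0 ≤ x := Ex_nonneg hp0 hp1 (fun F => ind_nonneg _)
  have hkey := key_ineq (K := K) hp0 hp1 hA hη (by rw [← hx]; linarith)
  rw [← hx] at hkey
  have hpos : 0 ≤ 1 - x - 1 / 4 - 1 / 4 := by linarith
  have := mul_le_mul_of_nonneg_right hM hpos
  nlinarith

end Pool.Agent.Helper86
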