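import Mathlib
import Pool.Agent.Helper86.Main

set_option autoImplicit false
set_option linter.unusedSectionVars false

namespace Pool.Agent.Helper86

open Finset Relation

/-- an ordering has a uniquely satisfiable subformula by the time it becomes unsatisfiable -/
def Bad (n : ℕ) (e : Fin (Nat.card {c : Finset (Fin n × Bool) // c.card = 2 ∧ (c.image Prod.fst).card = 2}) ≃
    {c : Finset (Fin n × Bool) // c.card = 2 ∧ (c.image Prod.fst).card = 2}) : Prop :=
  ∃ m : ℕ,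
    (∀ j : ℕ, j < m → ∃ a : Fin n → Bool,
        ∀ c : {c : Finset (Fin n × Bool) // c.card = 2 ∧ (c.image Prod.fst).card = 2},
          ((e.symm c : Fin _) : ℕ) < j → ∃ l ∈ c.val, a l.1 = l.2) ∧
    ∃ H : Finset {c : Finset (Fin n × Bool) // c.card = 2 ∧ (c.image Prod.fst).card = 2},
      H.Nonempty ∧
      (∀ c ∈ H, ((e.symm c : Fin _) : ℕ) < m) ∧
      ∃ a : Fin n → Bool,
        (∀ c ∈ H, ∃ l ∈ c.val, a l.1 = l.2) ∧
        ∀ b : Fin n → Bool, (∀ c ∈ H, ∃ l ∈ c.val, b l.1 = l.2) →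
          ∀ i : Fin n, (∃ c ∈ H, ∃ l ∈ c.val, l.1 = i) → b i = a i

lemma not_Ev_of_Bad {n : ℕ} {e : Fin (Nat.card (Cl n)) ≃ Cl n} (h : Bad n e) (m0 : ℕ) :
    ¬ Ev (firstm e m0) := by
  rintro ⟨hunsat, huaw⟩
  obtain ⟨m, hsat, H, hne, hH, a, ha, hu⟩ := h
  by_cases hm : m ≤ m0
  · apply huaw
    apply UA_imp_UAw
    refine ⟨H, ?_, hne, a, ha, hu⟩
    intro c hc
    unfold firstm
    rw [Finset.mem_filter]
    exact ⟨Finset.mem_univ _, lt_of_lt_of_le (hH c hc) hm⟩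
  · obtain ⟨a', ha'⟩ := hsat m0 (by omega)
    apply hunsat
    refine ⟨a', fun c hc => ha' c ?_⟩
    unfold firstm at hc
    rw [Finset.mem_filter] at hc
    exact hc.2

theorem ratio_le : ∀ᶠ n : ℕ in Filter.atTop,
    (Nat.card {e : Fin (Nat.card {c : Finset (Fin n × Bool) // c.card = 2 ∧ (c.image Prod.fst).card = 2}) ≃
      {c : Finset (Fin n × Bool) // c.card = 2 ∧ (c.image Prod.fst).card = 2} // Bad n e} : ℝ) /
    (Nat.card (Fin (Nat.card {c : Finset (Fin n × Bool) // c.card = 2 ∧ (c.image Prod.fst).card = 2}) ≃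
      {c : Finset (Fin n × Bool) // c.card = 2 ∧ (c.image Prod.fst).card = 2}) : ℝ) ≤ 1 - M0 / 18 := by
  classical
  rw [Filter.eventually_atTop]
  refine ⟨144 * 16 ^ 3, fun n hn => ?_⟩
  obtain ⟨K, hK, hK1, hK2⟩ : ∃ K : ℕ, 16 ≤ K ∧ 144 * K ^ 3 ≤ n ∧ n ≤ 1152 * K ^ 3 := by
    set K := Nat.findGreatest (fun K => 144 * K ^ 3 ≤ n) n with hKdef
    have h16 : 16 ≤ K := Nat.le_findGreatest (by omega) hn
    have h1 : 144 * K ^ 3 ≤ n := Nat.findGreatest_spec (P := fun K => 144 * K ^ 3 ≤ n) (by omega) hn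
    have h2 : n < 144 * (K + 1) ^ 3 := by
      by_contra hcon
      push Not at hcon
      have hle : K + 1 ≤ n := by
        have : K + 1 ≤ (K + 1) ^ 3 := Nat.le_self_pow (by norm_num) _
        omega
      have := Nat.le_findGreatest (P := fun K => 144 * K ^ 3 ≤ n) hle hcon
      omega
    refine ⟨K, h16, h1, ?_⟩
    have h3 : (K + 1) ^ 3 ≤ (2 * K) ^ 3 := Nat.pow_le_pow_left (by omega) 3
    have h4 : (2 * K) ^ 3 = 8 * K ^ 3 := by ring
    omega
  obtain ⟨p, hp0, hp1, hE⟩ := main_bound hK hK1 hK2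
  obtain ⟨m, hm⟩ := exists_order (α := Cl n) hp0 hp1 (fun F => Ev F) hE
  have hcardE : (Nat.card (Fin (Nat.card (Cl n)) ≃ Cl n) : ℝ) =
      (Fintype.card (Fin (Nat.card (Cl n)) ≃ Cl n) : ℝ) := by
    rw [Nat.card_eq_fintype_card]
  have hpos : (0 : ℝ) < (Fintype.card (Fin (Nat.card (Cl n)) ≃ Cl n) : ℝ) := by
    have : 0 < Fintype.card (Fin (Nat.card (Cl n)) ≃ Cl n) := by
      rw [Fintype.card_pos_iff]
      exact ⟨(Finite.equivFin (Cl n)).symm⟩
    exact_mod_cast this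
  have hbad : Nat.card {e : Fin (Nat.card (Cl n)) ≃ Cl n // Bad n e} +
      (Finset.univ.filter (fun e : Fin (Nat.card (Cl n)) ≃ Cl n => Ev (firstm e m))).card ≤
      Fintype.card (Fin (Nat.card (Cl n)) ≃ Cl n) := by
    rw [Nat.card_eq_fintype_card, Fintype.card_subtype, ← Finset.card_union_of_disjoint]
    · exact Finset.card_le_univ _
    · rw [Finset.disjoint_filter]
      intro e _ h1 h2
      exact not_Ev_of_Bad h1 m h2
  have hbad' : (Nat.card {e : Fin (Nat.card (Cl n)) ≃ Cl n // Bad n e} : ℝ) +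
      ((Finset.univ.filter (fun e : Fin (Nat.card (Cl n)) ≃ Cl n => Ev (firstm e m))).card : ℝ) ≤
      (Fintype.card (Fin (Nat.card (Cl n)) ≃ Cl n) : ℝ) := by exact_mod_cast hbad
  rw [hcardE, div_le_iff₀ hpos]
  linarith

end Pool.Agent.Helper86
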